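import Pool.Agent.Q283.FT.Def2
import Pool.Agent.TH841.SH.Alg2

/-!
# Project FT (helper283): statements of the parts, the curves

See `Stm2.lean` for the goal.  Pure algebra of the Kummer map of `y² = (x - e 0) (x - e 1) (x - e 2)`: the library `Pool/Agent/TH841/SH/Alg.lean`,
`Alg2.lean` (`IsR W a b c` for a curve over any field: `dup`, `trans` (translation by a torsion point), `halve`, `tors`, `isX_add`, `ext`, `div`, `sign`); `crv e` over `L` is
`IsR _ (e 0) (e 1) (e 2)` as `e 0 + e 1 + e 2 = 0`.  The templates in project EN (quartic twists): `S_QCL` (helper53), `S_QAP`, `S_QLOC`, `S_QEISO`, `S_IDX2`, `S_QCX`, `S_QKUM`, `S_QCOC`,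
`S_QCNV`, `S_QRS`; see `Pool/Agent/Q283/EN/All.lean` for the names of the theorems.
-/

set_option autoImplicit false

namespace Pool.Agent.Q283.FT

open NumberField IsDedekindDomain Filter Topology Finset WeierstrassCurve
open Pool.Agent.Q283.LQ (Sm Box Nest nS)
open Pool.Agent.Q7.LK
open Pool.Agent.TH841.SH.D (Coch Pt act Gal IsCoc IsCob LocTriv)
open Pool.Agent.TH841.NF.D (Sha IsShaCoc)

/-! ## The Kummer map -/

/-- JOB KUA (pure algebra). Classes of points: existence, uniqueness, the origin, torsion.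
Proof.  (1) cases `P = 0`, `P = (x, y)` with `x = e 0`, `x = e 1` or neither.  (2) the quotients are squares.  (3) clear.  (4) the classes of the points of order `2`: for `(e 1, 0)` the difference `e 1 - e 0 = - df e 2` and
`(e 1 - e 0) (e 1 - e 2) = - df e 2 * df e 0`, `- 1 = i²`; for `(e 2, 0)`: `e 2 - e 0 = - df e 1`, `e 2 - e 1 = - df e 0`. -/
def S_KUA : Prop := ∀ (F : Type) [Field F] [CharZero F] (i : F), i ^ 2 = -1 → ∀ e : Fin 3 → F, Rt e →
  ∀ (L : Type) [Field L] [Algebra F L],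
  (∀ P : Pt (crv e) L, ∃ a b : L, Cx e L P a b) ∧
  (∀ (P : Pt (crv e) L) (a b a' b' : L), Cx e L P a b → Cx e L P a' b' → IsSquare (a / a') ∧ IsSquare (b / b')) ∧
  (∀ (P : Pt (crv e) L) (a b s s' : L), s ≠ 0 → s' ≠ 0 → Cx e L P a b → Cx e L P (a * s ^ 2) (b * s' ^ 2)) ∧
  Cx e L 0 1 1 ∧
  ∀ (l : Fin 3), ∃ (h : ((crv e).baseChange L).toAffine.Nonsingular (algebraMap F L (e l)) 0),
    Cx e L (Affine.Point.some (algebraMap F L (e l)) 0 h)
      (algebraMap F L (if l = 0 then df e 1 * df e 2 else if l = 1 then df e 2 else df e 1))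
      (algebraMap F L (if l = 0 then df e 2 else if l = 1 then df e 0 * df e 2 else df e 0))

/-- JOB KUB (pure algebra, uses `S_KUA`). The class of a sum.
Proof.  `P`, `Q` or `P + Q` zero: clear (`- P` has the class of `P`).  `P = (x₁, y₁)`, `Q = (x₂, y₂)`, the line (tangent if `P = Q`) `y = λ x + ν` through `P`, `Q`, `- (P + Q) = (x₃, ..)`:
`(x - e 0) (x - e 1) (x - e 2) - (λ x + ν)² = (x - x₁) (x - x₂) (x - x₃)`; at `x = e i`: `(x₁ - e i) (x₂ - e i) (x₃ - e i) = (λ e i + ν)²`, a square, not `0` if no `x_j` is `e i`.  If one of them is a point of order two, say `Q = (e i, 0)`: `IsR.trans`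
(`X - e i = (e i - e j) (e i - e k) / (u - e i)`), and `X - e j = (e i - e j) (u - e j).. `: the component at `i` follows from the product of the others (`(x - e 0) (x - e 1) (x - e 2)` is a square), in all cases one may use that
the product of the three components of a class is a square. -/
def S_KUB : Prop := ∀ (F : Type) [Field F] [CharZero F] (i : F), i ^ 2 = -1 → ∀ e : Fin 3 → F, Rt e →
  ∀ (L : Type) [Field L] [Algebra F L] (P Q : Pt (crv e) L) (a b a' b' : L), Cx e L P a b → Cx e L Q a' b' →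
    Cx e L (P + Q) (a * a') (b * b')

/-- JOB KUC (pure algebra). Points of trivial class are divisible by `2`, and classes of doubles are trivial.
Proof.  `IsR.halve`: `x - e 0`, `x - e 1` are squares (for `x = e 0`: `df e 1 * df e 2` and `x - e 1 = df e 2` are squares, so `x - e 2 = df e 1` too, `x - e 0 = 0` is one), and so is `x - e 2` (`y²` is the product; if `y = 0`
see before), choose the signs of the roots with `y = s t w`. -/
def S_KUC : Prop := ∀ (F : Type) [Field F] [CharZero F] (i : F), i ^ 2 = -1 → ∀ e : Fin 3 → F, Rt e →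
  ∀ (L : Type) [Field L] [Algebra F L] (P : Pt (crv e) L) (a b : L), Cx e L P a b → IsSquare a → IsSquare b → ∃ R, P = R + R

/-- JOB AXP (pure algebra). The covering and the points.
Proof.  A solution with `w ≠ 0` gives the point with `x = e 0 + a (z 0 / w)²`, `y = a b z 0 z 1 z 2 / w³`; if `z 0 = 0` then `b z 1² = (e 0 - e 1) w²`, `a b z 2² = (e 0 - e 2) w²`, so `a` is `df e 1 * df e 2` up to squares (similarly
`z 1 = 0`; not both are `0`).  `w = 0`: `a z 0² = b z 1² = a b z 2² ≠ 0`, so `a`, `b` are squares, `P = 0`.  Conversely `P = 0`, `a = s²`, `b = t²`: `z = (1 / s, 1 / t, 1 / (s t))`, `w = 0`; `P = (x, y)`: `w = 1`,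
`z 0² = (x - e 0) / a`, `z 1² = (x - e 1) / b` and `z 2² = (x - e 2) / (a b)` exist (the product of `x - e i` is `y²`; for `x = e 0`: `a b` is `(e 0 - e 2)` up to squares, for `x = e 1` it is `e 1 - e 2`). -/
def S_AXP : Prop := ∀ (F : Type) [Field F] [CharZero F] (i : F), i ^ 2 = -1 → ∀ e : Fin 3 → F, Rt e →
  ∀ (L : Type) [Field L] [Algebra F L] (a b : F), a ≠ 0 → b ≠ 0 →
  (Cov e L a b ↔ ∃ P : Pt (crv e) L, Cx e L P (algebraMap F L a) (algebraMap F L b))

/-! ## Local conditions -/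

section F

/-- JOB LCP (uses `S_KUA`, `S_KUB`, `S_AXP`, `LK.S_BAS`, `LK.S_CPL`). Properties of the local conditions.
Proof.  (1) `S_AXP` and `S_KUB` (`AX` is `Cov` over the completion).  (2) `a ↦ a s²` in `z 0`, `z 2`: if `a' = a m`, `m = s²` in the completion (`S_CPL`).  (3) `w ↦ w s`, `n = s²` in the completion.  (4) the torsion points (`S_KUA`) and (2)
(`Lpw 2 v (a * c)` means that `a` is `c` up to squares). -/
def S_LCP : Prop := ∀ (F : Type) [Field F] [NumberField F] (i : F), i ^ 2 = -1 → ∀ e : Fin 3 → F, Rt e →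
  ∀ v : HeightOneSpectrum (𝓞 F),
  (∀ a b a' b' : F, AX v e a b → AX v e a' b' → AX v e (a * a') (b * b')) ∧
  (∀ a b m m' : F, Lpw 2 v m → Lpw 2 v m' → AX v e a b → AX v e (a * m) (b * m')) ∧
  (∀ a b n : F, Lpw 2 v n → AX v e a b → AX v (twi n e) a b) ∧
  (∀ a b : F, TX v e a b → AX v e a b)

/-- JOB STB (uses `LK.S_BAS`). The relation of Steinberg.
Proof.  If `A / C` is a square then (`Hilb.pow`, `Hilb.anti`, `Hilb.mul`) both sides are equal: `t v A B = t v C B`, `t v A C = t v C C`, and `t v C C = 0` as below.. ; otherwise `M = F(√(A / C))`, `B / C = 1 - A / C` is the norm of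
`1 - √(A / C)`: `t v (B / C) (A / C) = 0` (`Hilb.nrm`; see the proof of `EN.S_QEISO` and of `LK.S_HS2`).  `t v C C = 0`: `- C = i² C` is a norm from `F(√C)`.  Expand `t v (B / C) (A / C) = 0` (`t v x (1 / y) = t v x y` in
characteristic `2`). -/
def S_STB : Prop := ∀ (F : Type) [Field F] [NumberField F] (i ζ : F), i ^ 2 = -1 → IsPrimitiveRoot ζ 2 →
  ∀ t : HeightOneSpectrum (𝓞 F) → F → F → ZMod 2, Hilb 2 ζ t → ∀ (v : HeightOneSpectrum (𝓞 F)),
  (∀ A : F, A ≠ 0 → t v A A = 0) ∧
  ∀ A B C : F, A ≠ 0 → B ≠ 0 → C ≠ 0 → A + B = C → t v A B = t v A C + t v B C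

/-- JOB ISQ (uses `S_KUA`, `S_AXP`, `S_STB`, `LK.S_BAS`, `LK.S_CPL`). The quadratic relation for the local classes.
Proof.  `P` a point over the completion of class `(a, b)` (`S_AXP`).  If `P = (x, y)` with `x ≠ e j` for all `j` choose `x₀ ∈ F` close to `x`: `A_j = x₀ - e j` is `x - e j` up to local squares, so `Lpw 2 v (a * A_0)`,
`Lpw 2 v (b * A_1)`, `Lpw 2 v (A_0 * A_1 * A_2)`.  `S_STB` for `A_0 + (e 0 - e 1) = A_1` etc. (`- 1` is a square): with `t = t v`, `t A_0 A_1 = t (A_0 A_1) (df e 2)`, `t A_1 A_2 = t (A_1 A_2) (df e 0)`, `t A_0 A_2 = t (A_0 A_2) (df e 1)`; as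
`A_2` is `A_0 A_1` up to local squares and `t A A = 0` the left sides are all `t A_0 A_1`, and the right sides are `t (A_0 A_1) (df e 2)`, `t A_0 (df e 0)`, `t A_1 (df e 1)`.  The sum of the three equations is
`t A_0 A_1 = t A_0 (df e 0 * df e 2) + t A_1 (df e 1 * df e 2)`.  `P = 0`: `a`, `b` are local squares.  The points of order `2` (`S_KUA`): a direct computation with `t (df e 2) (df e 0) = t (df e 2) (df e 1) + t (df e 0) (df e 1)`
(`S_STB`: `df e 2 + df e 0 = df e 1`). -/
def S_ISQ : Prop := ∀ (F : Type) [Field F] [NumberField F] (i ζ : F), i ^ 2 = -1 → IsPrimitiveRoot ζ 2 →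
  ∀ t : HeightOneSpectrum (𝓞 F) → F → F → ZMod 2, Hilb 2 ζ t → ∀ e : Fin 3 → F, Rt e →
  ∀ (v : HeightOneSpectrum (𝓞 F)) (a b : F), AX v e a b →
    t v a b + t v a (df e 0 * df e 2) + t v b (df e 1 * df e 2) = 0

/-- JOB IDP (uses `EN.S_LIX`, `EN.S_VAL`, both proved). The local index of multiplication by `2`, points.
Proof.  `S_LIX` for `θ = ` multiplication by `2` and the exponent `2 e'`, `v(2) = exp(-2 e')` (`S_VAL`, `p = 2`; `N v ^ e' = 2 ^ (dv 2 v / 2)`): for `P = (x, y)`, `v(x)` large (larger than the `v(e j)`, so `y ≠ 0`),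
`X(2 P) = (x⁴ - 2 A x² - 8 B x + A²) / (4 (x³ + A x + B))`, `v(X) = v(x) / v(4) = exp(4 e') v(x)` (`IsR.dup`: `X - e 0 = (((x - e 0)² - ..) / (2 y))²`).  `K0` = the four points of order dividing `2`. -/
def S_IDP : Prop := ∀ (F : Type) [Field F] [NumberField F] (i : F), i ^ 2 = -1 → ∀ (v : HeightOneSpectrum (𝓞 F)) (e : Fin 3 → F),
  Rt e → (∀ j, IsIntegral ℤ (e j)) → ∃ M : Finset (Pt (crv e) (v.adicCompletion F)),
    2 ^ (2 * (dv 2 v / 2) + 2) ≤ M.card ∧ ∀ P ∈ M, ∀ Q ∈ M, P ≠ Q → ∀ R, P - Q ≠ R + R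

/-- JOB IDE (uses `S_IDP`, `S_KUA`, `S_KUB`, `S_KUC`, `S_AXP`, `S_LCP`, `LK.S_BAS`, `LK.S_CPL`). The number of the local classes.
Proof.  (Template: `EN.S_IDX2`.)  By `S_LCP` (3) `e` may be replaced by `n² e`, `n ∈ ℕ`, so the `e j` are integral.  `M` from `S_IDP`; choose for each point a class in the completion (`S_KUA`) and `b ∈ F^*` close to the components; `AX` by
`S_AXP`; if the quotients of the components for `P ≠ Q` are local squares then `P - Q = P + (- Q)` has a trivial class (`S_KUB`; `- Q` has the class of `Q`), so `P - Q = R + R` (`S_KUC`). -/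
def S_IDE : Prop := ∀ (F : Type) [Field F] [NumberField F] (i : F), i ^ 2 = -1 → ∀ (v : HeightOneSpectrum (𝓞 F)) (e : Fin 3 → F),
  Rt e → ∃ B : Finset (F × F), 2 ^ (2 * (dv 2 v / 2) + 2) ≤ B.card ∧ (∀ b ∈ B, AX v e b.1 b.2) ∧
    ∀ b ∈ B, ∀ b' ∈ B, b ≠ b' → ¬ (Lpw 2 v (b.1 / b'.1) ∧ Lpw 2 v (b.2 / b'.2))

/-- JOB GDS. Almost all places are good.
Proof.  The `v` with `Dp 2 v`, with `v(e j) > 1` for some `j` or with `v(df e l) ≠ 1` for some `l` are finitely many (`df e l ≠ 0`), and each of them lies above a rational prime. -/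
def S_GDS : Prop := ∀ (F : Type) [Field F] [NumberField F] (e : Fin 3 → F), Rt e → ∃ y0 : ℕ, ∀ y, y0 ≤ y →
  ∀ v : HeightOneSpectrum (𝓞 F), ¬ Sm y v → Gd v e

/-- JOB GDU (uses `S_AXP`, `S_LCP`, `S_IDE`, `LK.S_BAS`, `LK.S_CPL`). Good places, even order.
Proof.  `D n²` is a unit at `v` for a suitable `n ∈ F^*` and `S_LCP` (3) (both directions, `n⁻²`) allows to replace `D` by `D n²`: `v(D) = 1`, `e' = twi D e` is good.  `→`: a point `P = (x, y)` of class `(a, b)` over the completion: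
if `v(x) > 1` then `v(x - e' j) = v(x)` and `v(y)² = v(x)³`, so `v(x)` is a square; if `v(x) ≤ 1` at most one of the `x - e' j` is not a unit (`v(e' i - e' j) = 1`), and their product is a square; so all components have even
order (for the points of order two they are units).  `←`: `S_IDE` gives four (`dv 2 v = 0`) inequivalent pairs, all with orders `0` modulo `2`, so their symbols `(sy, sy)` are the four elements of `ZMod 2 × ZMod 2` (`S_BAS` (7)), and
`(a, b)` is equivalent to one of them: `S_LCP` (2). -/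
def S_GDU : Prop := ∀ (F : Type) [Field F] [NumberField F] (i : F), i ^ 2 = -1 → ∀ (v : HeightOneSpectrum (𝓞 F)) (e : Fin 3 → F),
  Rt e → Gd v e → ∀ D a b : F, D ≠ 0 → a ≠ 0 → b ≠ 0 → vl 2 v D = 0 → (AX v (twi D e) a b ↔ vl 2 v a = 0 ∧ vl 2 v b = 0)

/-- JOB GDR (uses `S_AXP`, `S_LCP`, `LK.S_BAS`, `LK.S_CPL`). Good places, odd order.
Proof.  `←`: `S_LCP` (4).  `→`: a point `P = (x, y)` of class `(a, b)` over the completion, `e' = twi D e`, `v(e' j) ≤ v(D)`, `v(e' i - e' j) = v(D)`.  If `v(x) > v(D)`: `x - e' j` is `x (1 - e' j / x)`, a local square times `x` (`v ∤ 2`), and the product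
of the three is a square, so `x` is a square: trivial class.  If `v(x) ≤ v(D)`: `x = D x'`, `y² = D³ ∏ (x' - e j)`, `v(x') ≤ 1`; the order of `D` is odd, so the order of `∏ (x' - e j)` is odd (or `y = 0`), and at most one of the `x' - e j` is not a unit, say
`j = l`: then `x' - e j` is congruent to `e l - e j` for `j ≠ l`, so `x - e' j` is `D (e l - e j)` up to local squares and `x - e' l` is the product of the two others: the class of the point `(e' l, 0)`. -/
def S_GDR : Prop := ∀ (F : Type) [Field F] [NumberField F] (i : F), i ^ 2 = -1 → ∀ (v : HeightOneSpectrum (𝓞 F)) (e : Fin 3 → F),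
  Rt e → Gd v e → ∀ D a b : F, D ≠ 0 → vl 2 v D ≠ 0 → (AX v (twi D e) a b ↔ TX v (twi D e) a b)

/-! ## Cocycles -/

/-- JOB KSA (Kummer theory; templates: the proof of `EN.S_QKUM`, `TH841/SH/Kum.lean`, `exists_char'` in `TH841/SH/Sel.lean`). From cocycles to pairs.
Proof.  `f` has values in the points of order dividing `2`, which are rational, so `f (σ τ) = f σ + f τ`; `h σ = 0` iff `f σ ∈ {0, (e 0, 0)}` is a locally constant homomorphism to `ZMod 2` (`IsR.isX_add`), so there is `α ∈ F̄^*`, `α² = a ∈ F^*`, with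
`σ α = ± α`, `+` iff `h σ = 0`; similarly `b`. -/
def S_KSA : Prop := ∀ (F : Type) [Field F] [NumberField F] (e : Fin 3 → F), Rt e → ∀ f : Coch (crv e), IsCoc (crv e) f →
  (∀ σ, f σ + f σ = 0) → ∃ a b : F, a ≠ 0 ∧ b ≠ 0 ∧ Ks e a b f

/-- JOB KSB (templates: the proof of `EN.S_QCOC`). From pairs to cocycles; sums.
Proof.  `f σ` = the point `T` of order dividing `2` with `T ∈ {0, (e 0, 0)}` iff `σ α = α` and `T ∈ {0, (e 1, 0)}` iff `σ β = β`; a locally constant homomorphism (`IsR.isX_add`, `IsR.ext`).  (2), (3): `σ (α α') = ..`, `IsR.isX_add`.  (4): the quotients of two choices of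
`α`, `β`: `f` determines the characters, so `a / a'`, `b / b'` are squares. -/
def S_KSB : Prop := ∀ (F : Type) [Field F] [NumberField F] (e : Fin 3 → F), Rt e →
  (∀ a b : F, a ≠ 0 → b ≠ 0 → ∃ f : Coch (crv e), Ks e a b f) ∧
  (∀ (a b : F) (f : Coch (crv e)), a ≠ 0 → b ≠ 0 → Ks e a b f → IsCoc (crv e) f) ∧
  (∀ (a b a' b' : F) (f f' : Coch (crv e)), a ≠ 0 → b ≠ 0 → a' ≠ 0 → b' ≠ 0 → Ks e a b f → Ks e a' b' f' →
    Ks e (a * a') (b * b') (f + f')) ∧
  ∀ (a b a' b' : F) (f f' : Coch (crv e)), a ≠ 0 → b ≠ 0 → a' ≠ 0 → b' ≠ 0 → Ks e a b f → Ks e a' b' f' →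
    (f = f' ↔ IsPow 2 (a / a') ∧ IsPow 2 (b / b'))

/-- JOB KSL (uses `S_AXP`, `S_KUA`, `S_KUC`; templates: the proofs of `EN.S_QKUM`, `EN.S_QCOC`, `TH841/SH/Loc.lean`). Local triviality and the covering.
Proof.  `K` the completion, `ι : F̄ → K̄`.  For a point `R = (u, v)` of `crv e` over `K̄` with `2 R ≠ 0` let `g₀(R)`, `g₁(R)` be the square roots of `X(2 R) - e 0`, `X(2 R) - e 1` from `IsR.dup` (`gf`), `g_j(R + T) = ± g_j(R)` with `+` iff
`T ∈ {0, (e j, 0)}` (`IsR.sign`).  `→`: `ι (f σ) = τ R - R`; `2 R` is fixed by all `τ`, so `P = 2 R` is in `crv e (K)`.  If `P = 0`: `f = 0` on the decomposition group, `a`, `b` are squares in `K`.  If `2 P ≠ 0` or `P` has no vanishing `X - e j`: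
`τ (g_j(R)) = g_j(τ R) = g_j(R + ι f σ) = ± g_j(R)`, the same sign as for `ι α` (`j = 0`), `ι β` (`j = 1`), so `X(P) - e 0 = a s²`, `X(P) - e 1 = b s'²`, `s, s' ∈ K^*`.  If `P = (e l, 0)`: the same for the two `j ≠ l`, and the product of
the three characters is trivial.  `←`: `P` a point of class `(a, b)` over `K` (`S_AXP`), `P = 2 R` over `K̄` (`IsR.div`), `τ R - R` has order dividing `2` and by the same computation its pairings are the characters of `a`, `b`, so it
is `ι (f σ)` (`IsR.ext`).  Infinite places: `F` contains `i`, so the completion is isomorphic to `ℂ`, `τ = 1`, `f σ = 0` for the `σ` which occur (`ι σ = τ ι = ι`). -/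
def S_KSL : Prop := ∀ (F : Type) [Field F] [NumberField F] (i : F), i ^ 2 = -1 → ∀ (e : Fin 3 → F), Rt e →
  ∀ (a b : F) (f : Coch (crv e)), a ≠ 0 → b ≠ 0 → Ks e a b f →
  (∀ v : HeightOneSpectrum (𝓞 F), LocTriv (crv e) (v.adicCompletion F) f ↔ AX v e a b) ∧
  ∀ v : InfinitePlace F, LocTriv (crv e) v.Completion f

/-- JOB KSC (uses `S_KUA`, `S_KUC`; templates: the proofs of `EN.S_QCOC`, `EN.S_QKUM`). Coboundaries.
Proof.  The same computation as in `S_KSL` with `K = F`: `f σ = σ R - R` iff `P = 2 R ∈ crv e (F)` has the class `(a, b)`. -/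
def S_KSC : Prop := ∀ (F : Type) [Field F] [NumberField F] (i : F), i ^ 2 = -1 → ∀ (e : Fin 3 → F), Rt e →
  ∀ (a b : F) (f : Coch (crv e)), a ≠ 0 → b ≠ 0 → Ks e a b f →
  (IsCob (crv e) f ↔ ∃ P : Pt (crv e) F, Cx e F P a b)

/-- JOB MWR (uses `Pool.Agent.TH942.sfg`: the Mordell-Weil theorem for `y² = x³ + a x + b` over number fields). The index of `2 E(F)`.
Proof.  `E(F)` is finitely generated (`sfg`; the curve `crv e` over `F` is `y² = x³ + A x + B`, see `Y715/Mw.lean` for the translation) and has exactly four points of order dividing `2`, so `#(E(F) / 2 E(F)) = 4 · 2^rank` (for a finitely generated abelian group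
`G`: `#(G / 2 G) = 2^rank #G[2]`, in `TH841/SH/Alg*.lean` or `Q283`, `#(G/2G)` for the free part and the finite torsion part). -/
def S_MWR : Prop := ∀ (F : Type) [Field F] [NumberField F] (e : Fin 3 → F), Rt e →
  Module.Finite ℤ (Pt (crv e) F) ∧
  Nat.card (Pt (crv e) F ⧸ (nsmulAddMonoidHom 2 : Pt (crv e) F →+ Pt (crv e) F).range) = 4 * 2 ^ Module.finrank ℤ (Pt (crv e) F)

/-- JOB CNT (uses `S_KSA`, `S_KSB`, `S_KSL`, `S_KSC`, `S_KUA`, `S_KUB`, `S_KUC`, `S_MWR`). The number of the elements of the Selmer group.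
Proof.  The `N` classes of pairs are the group `Sel` of the cocycles with values in the points of order dividing `2` which are locally trivial (`S_KSA`, `S_KSB`, `S_KSL`; a bijection by `S_KSB` (4)).  `Sel → Ш[2]` is surjective: `x ∈ Ш[2]` is the class of a cocycle `f`,
`2 f σ = σ Q - Q`, `Q = 2 R`, replace `f` by `f - (σ R - R)`.  Its kernel is the set of the classes of the points of `E(F)` (`S_KSC`), a group isomorphic to `E(F) / 2 E(F)` (`S_KUA`, `S_KUB`, `S_KUC`), of order `4 · 2^rank` (`S_MWR`). -/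
def S_CNT2 : Prop := ∀ (F : Type) [Field F] [NumberField F] (i : F), i ^ 2 = -1 → ∀ (e : Fin 3 → F), Rt e →
  ∀ N : ℕ, HasN2 (SC e) N → Finite {x : Sha (crv e) // (2 : ℕ) • x = 0} ∧
    N = 4 * 2 ^ Module.finrank ℤ (Pt (crv e) F) * Nat.card {x : Sha (crv e) // (2 : ℕ) • x = 0}

/-- JOB TRV (uses `S_MWR`). Rank `0` and `Ш[2] = 0`.
Proof.  `E(F)` is finite iff its rank is `0` (`S_MWR`); `Ш[2] = 0` iff `Ш[2^n] = 0` for all `n`; `2^rank #Ш[2] = 1` iff both. -/
def S_TRV : Prop := ∀ (F : Type) [Field F] [NumberField F] (e : Fin 3 → F), Rt e →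
  Finite {x : Sha (crv e) // (2 : ℕ) • x = 0} →
  (2 ^ Module.finrank ℤ (Pt (crv e) F) * Nat.card {x : Sha (crv e) // (2 : ℕ) • x = 0} = 1 ↔
    Finite (Pt (crv e) F) ∧ ∀ (n : ℕ) (x : Sha (crv e)), 2 ^ n • x = 0 → x = 0)

end F

end Pool.Agent.Q283.FT
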