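import Pool.Agent.Q283.FT.Stm2
import Pool.Agent.Q283.FT.Stm3

/-!
# Project FT (helper283): statements of the parts, the assembly
-/

set_option autoImplicit false

namespace Pool.Agent.Q283.FT

open NumberField IsDedekindDomain Filter Topology Finset WeierstrassCurve Module
open Pool.Agent.Q283.LQ (Sm Box Nest nS)
open Pool.Agent.Q7.LK
open Pool.Agent.Q283.EN (P_BASE P_LOC Alt BB)
open Q44.JQ (lawc)
open scoped Classical

/-- JOB FUL (uses `S_LCP`, `S_GDU`, `S_GDR`, `LK.S_BAS`). The Selmer group and the conditions of the tables.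
Proof.  Small `v`: `twi D e = twi (D / D0) (twi D0 e)` and `S_LCP` (3) for `D / D0` and its inverse (`S_BAS` (4)).  The other `v` are good: `S_GDU`, `S_GDR`. -/
def S_FUL : Prop := ∀ (F : Type) [Field F] [NumberField F] (i : F), i ^ 2 = -1 → ∀ e : Fin 3 → F, Rt e →
  ∀ y : ℕ, (∀ v : HeightOneSpectrum (𝓞 F), ¬ Sm y v → Gd v e) → ∀ D0 D : F, D0 ≠ 0 → D ≠ 0 →
  (∀ v : HeightOneSpectrum (𝓞 F), Sm y v → Lpw 2 v (D / D0)) → ∀ a b : F,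
    (SC (twi D e) a b ↔ CondP y (fun v => AX v (twi D0 e)) e D a b)

/-- JOB FIT. Every `D` belongs to a tuple of primes.
Proof.  The `v` with `¬ Sm y v` and `vl 2 v D ≠ 0` (so `= 1`) are finitely many. -/
def S_FIT : Prop := ∀ (F : Type) [Field F] [NumberField F] (y : ℕ) (D0 D : F), D0 ≠ 0 → D ≠ 0 →
  (∀ v : HeightOneSpectrum (𝓞 F), Sm y v → Lpw 2 v (D / D0)) →
  ∃ (k : ℕ) (q : Fin k → HeightOneSpectrum (𝓞 F)), Function.Injective q ∧ (∀ i, ¬ Sm y (q i)) ∧ Fits 2 y D0 (fun _ => 1) q D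

/-- JOB NEX (uses `LK.S_BAS`, `P_BASE`, `S_GDS`, `S_GDU`, `S_LCP`). The Selmer group is finite.
Proof.  (Template: `EN.S_QPOW`.)  `P_BASE` for `y ≥ 2` so large that all `v` which are not small are good (`S_GDS`).  If `SC e a b` then `vl 2 v a = vl 2 v b = 0` for the `v` which are not small (`S_GDU` with `D = 1`,
`twi 1 e = e`), so `a * mon u x`, `b * mon u x'` are squares for some `x`, `x'` (`Base.full`), unique by `Base.ind`.  The set of the `(x, x')` for which `(mon u x, mon u x')` is in `SC e` is a subgroup of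
`(Fin f → ZMod 2)²` (`S_LCP`), of order `2^n`. -/
def S_NEX : Prop := ∀ (F : Type) [Field F] [NumberField F] (i ζ : F), i ^ 2 = -1 → IsPrimitiveRoot ζ 2 → P_BASE 2 F ζ →
  ∀ e : Fin 3 → F, Rt e → ∃ n : ℕ, HasN2 (SC e) (2 ^ n)

/-- JOB TOT (only Mathlib; `Q44.JQ.M.hasSum_lawc` in `Pool/Agent/Q44/JQ/M`: `HasSum (lawc c) 1`; nonnegativity of `lawc` there or in `Q269/SL`). From finitely many vectors to all sets of vectors.
Proof.  `p r = ∏ l, lawc (c l) (r l)` is summable on `κ → ℕ` with sum `1` (product of sums; `Q44/JQ/X/Out.lean` contains such a statement).  Choose a finite set `G` of vectors with `∑_(G) p ≥ 1 - ε / 4`, `δ = ε / (4 (#G + 1))`.  The number of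
the `q` with `r q ∉ G` is at most `(1 - ∑_(g ∈ G) (p g - δ)) #T ≤ ε / 2 #T`; for every `𝒜` the numbers for `𝒜 ∩ G` differ by at most `#G δ #T`. -/
def S_TOT : Prop := ∀ (κ : Type) [Fintype κ] (c : κ → ZMod 2) (ε : ℝ), 0 < ε → ∃ (G : Finset (κ → ℕ)) (δ : ℝ), 0 < δ ∧
  ∀ (α : Type) (T : Finset α) (r : α → κ → ℕ),
    (∀ g ∈ G, |((T.filter (fun q => r q = g)).card : ℝ) - (∏ l, lawc (c l) (g l)) * (T.card : ℝ)| ≤ δ * (T.card : ℝ)) →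
    ∀ 𝒜 : Set (κ → ℕ), |((T.filter (fun q => r q ∈ 𝒜)).card : ℝ) -
      (∑' g : κ → ℕ, if g ∈ 𝒜 then ∏ l, lawc (c l) (g l) else 0) * (T.card : ℝ)| ≤ ε * (T.card : ℝ)

/-- JOB LOK (uses `S_DJS`, `S_CLE`, `S_SBM`, `S_CGE`, `S_SNG`, `S_TRS`, `S_LCP`, `S_ISQ`, `S_IDE`, `EN.S_VAL`, `LK.S_BAS`). The local data of a twist.
Proof.  `A v = AX v (twi D0 e)`: `LocP` by `S_LCP` (`(a, b)` with `Lpw` is `(1 a, 1 b)`; `AX v _ 1 1`: `S_LCP` (4)); `𝓛` from `S_SBM`; `Ok`: `Sym`, `nd` by `S_DJS`; `sing` by `S_SNG` and `S_ISQ` for the roots `twi D0 e`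
(`df (twi D0 e) l = D0 * df e l`; the factors `D0²` are squares: `t v a (D0² z) = t v a z`); `tor` by `S_TRS`, `S_LCP` (4); `card`: `≤` by `S_CLE`, `≥` by `S_CGE` with `n v = 2 * (dv 2 v / 2) + 2` (`S_IDE`): the sum over the small places is
`2 nS + 2 ∑ (dv 2 v / 2) ≥ 2 nS + 2 r2 = 2 f` (`S_VAL`; `dv 2 v = 0` unless `Dp 2 v`, which implies `Sm y v` as `2 ≤ y`), `Nat.card U2 = 4`. -/
def S_LOK : Prop := ∀ (F : Type) [Field F] [NumberField F] (i ζ : F), i ^ 2 = -1 → IsPrimitiveRoot ζ 2 →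
  ∀ t : HeightOneSpectrum (𝓞 F) → F → F → ZMod 2, Hilb 2 ζ t →
  ∀ (y f : ℕ) (u r : Fin f → F) (π : HeightOneSpectrum (𝓞 F) → F), Base 2 ζ y f u r π (fun _ _ => 0) → Frm t y u r →
  f = InfinitePlace.nrComplexPlaces F + nS F y → {v : HeightOneSpectrum (𝓞 F) | Sm y v}.Finite →
  ∀ (e : Fin 3 → F) (c : Fin 3 → Fin f → ZMod 2), Rt e → Dcl u e c →
  ∀ (D0 : F) (ψ w : Fin f → ZMod 2), D0 ≠ 0 → Nn 2 y (D0 * mon r ψ * mon u w) → ∀ t₀ : Fin f,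
  ∃ 𝓛 : Submodule (ZMod 2) ((Fin f → U2) × (Fin f → U2)), Mem y u r (fun v => AX v (twi D0 e)) 𝓛 ∧
    (dj t₀ c w 𝓛).Ok ψ

/-- JOB DCE (uses `LK.S_BAS`). The classes of the differences.
Proof.  `vl 2 v (df e l) = 0` for the good places, `Base.full`; `c l` is unique (`Base.ind`).  If `c l = c l'`, `l ≠ l'`, then `df e l * df e l'` is a square; if `c l = c' (σ l)` for all `l` then `Matched e e'`. -/
def S_DCE : Prop := ∀ (F : Type) [Field F] [NumberField F] (ζ : F), IsPrimitiveRoot ζ 2 →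
  ∀ (y f : ℕ) (u r : Fin f → F) (π : HeightOneSpectrum (𝓞 F) → F), Base 2 ζ y f u r π (fun _ _ => 0) →
  (∀ e : Fin 3 → F, Rt e → (∀ v : HeightOneSpectrum (𝓞 F), ¬ Sm y v → Gd v e) → ∃ c : Fin 3 → Fin f → ZMod 2, Dcl u e c) ∧
  (∀ (e : Fin 3 → F) (c : Fin 3 → Fin f → ZMod 2), Rt e → Dcl u e c → NoFour e → Function.Injective c) ∧
  ∀ (e e' : Fin 3 → F) (c c' : Fin 3 → Fin f → ZMod 2), Rt e → Rt e' → Dcl u e c → Dcl u e' c' → ¬ Matched e e' →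
    ¬ ∃ σ : Equiv.Perm (Fin 3), ∀ l, c l = c' (σ l)

/-- JOB FLAW (uses `S_TBL`, `S_TPA`, `S_TUB`, `S_TRM`, `S_ADJ`, `S_G0`, `S_SXX`, `S_FUL`, `S_FIT`, `S_GDS`, `S_LOK`, `S_DCE`, `S_NEX`, `S_CNT2`, `EN.S_TRF`, `LK.S_BAS`). **The joint law.**
Proof.  `y0` so large that all places which are not small are good for all the curves.  For `D0` take `𝓛 k` from `S_LOK`, `c k = finrank pm` modulo `2` (the labels `dj t₀ (cc k) w (𝓛 k)`).  For every `D` with `D / D0 ∈ F_v^{*2}` at the small places: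
`S_FIT`, a table `τ` (`Tb`), `S_FUL`, `S_SXX`: the number of the classes is `nSel`, `S_TPA` for the parity, `S_CNT2` and `S_NEX`: it is `2^(r + 2)`.  The law: `S_TBL`, `EN.S_TRF` with `P τ = (∀ l, nSel τ = 4 * 2^(r l))`, `S_SXX`.  The mean: `S_TUB` (summed
over the labels), `S_TRM`. -/
def S_FLAW : Prop := ∀ (F : Type) [Field F] [NumberField F] (i ζ : F), i ^ 2 = -1 → IsPrimitiveRoot ζ 2 →
  P_BASE 2 F ζ → P_LOC 2 F → ∀ t : HeightOneSpectrum (𝓞 F) → F → F → ZMod 2, Hilb 2 ζ t →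
  ∀ (κ : Type) [Fintype κ] (e : κ → Fin 3 → F), (∀ l, Rt (e l)) → (∀ l, NoFour (e l)) →
  (∀ l l', l ≠ l' → ¬ Matched (e l) (e l')) → ∃ y0 : ℕ, ∀ y, y0 ≤ y → ∀ D0 : F, D0 ≠ 0 → ∃ c : κ → ZMod 2,
  (∀ D : F, D ≠ 0 → (∀ v : HeightOneSpectrum (𝓞 F), Sm y v → Lpw 2 v (D / D0)) → ∀ l, ∃ n : ℕ,
    HasN2 (SC (twi D (e l))) (2 ^ (n + 2)) ∧ ((n : ℕ) : ZMod 2) = c l) ∧
  (∀ (r : κ → ℕ) (ε : ℝ), 0 < ε → ∃ k0 : ℕ, ∀ k, k0 ≤ k → Nest k fun X =>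
    (Box y X : Set (Fin k → HeightOneSpectrum (𝓞 F))).Finite ∧
    0 < ({q ∈ (Box y X : Set (Fin k → HeightOneSpectrum (𝓞 F))) | ∃ D, Fits 2 y D0 (fun _ => 1) q D}.ncard : ℝ) ∧
    |({q ∈ (Box y X : Set (Fin k → HeightOneSpectrum (𝓞 F))) | (∃ D, Fits 2 y D0 (fun _ => 1) q D) ∧
          ∀ D, Fits 2 y D0 (fun _ => 1) q D → ∀ l, HasN2 (SC (twi D (e l))) (2 ^ (r l + 2))}.ncard : ℝ) -
        (∏ l, lawc (c l) (r l)) *
          ({q ∈ (Box y X : Set (Fin k → HeightOneSpectrum (𝓞 F))) | ∃ D, Fits 2 y D0 (fun _ => 1) q D}.ncard : ℝ)| ≤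
      ε * ({q ∈ (Box y X : Set (Fin k → HeightOneSpectrum (𝓞 F))) | ∃ D, Fits 2 y D0 (fun _ => 1) q D}.ncard : ℝ)) ∧
  ∃ C : ℝ, ∀ l, ∀ k, 1 ≤ k → Nest k fun X =>
    ∀ (B : Finset (Fin k → HeightOneSpectrum (𝓞 F))) (N : (Fin k → HeightOneSpectrum (𝓞 F)) → ℕ),
      (∀ q ∈ B, q ∈ (Box y X : Set (Fin k → HeightOneSpectrum (𝓞 F)))) →
      (∀ q ∈ B, ∃ D, Fits 2 y D0 (fun _ => 1) q D ∧ HasN2 (SC (twi D (e l))) (N q)) →
      ∑ q ∈ B, (N q : ℝ) ≤ C *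
        ({q ∈ (Box y X : Set (Fin k → HeightOneSpectrum (𝓞 F))) | ∃ D, Fits 2 y D0 (fun _ => 1) q D}.ncard : ℝ)

end Pool.Agent.Q283.FT
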