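import Pool.Agent.Q283.FT.Def2
import Pool.Agent.Q44.JQ.StmG

/-!
# Project FT (helper283): statements of the parts, tables and linear algebra

GOAL.  `F` a number field containing `i`, `E_k : y² = (x - e_0) (x - e_1) (x - e_2)` finitely many elliptic curves over `F` with full
2-torsion, without cyclic subgroups of order `4` over `F`, with pairwise different modules `E_k[4]`.  `D` runs through an ensemble as in
projects LK, EN (given classes modulo squares in the completions at the places above the rational primes `≤ y`, odd order at `k` primes `q_i`,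
even order at the others).  `#Sel_2(E_k^D) = 2^(2 + r_k(D))`; the parity of `r_k(D)` is constant, and the `r_k(D)` are asymptotically independent
with the law `p(e) = β 2^e / ∏_(i ≤ e) (2^i - 1)` on the numbers `e` of the right parity, `β = ∏ (1 - 2^(-2i-1)) = 0.4194`.

The linear algebra (`f_LAJ`, `f_PAR0`, `f_LAM`, .. in `Pool/Agent/Q283/FT/Core.lean`) is that of project JQ (helper44, JointSelmerLaw over `ℚ`),
ported to the situation without a sign: `sgz` is zero, so that `Rec N h t₀` says `N q p = N p q` and `Dj.Sym` that `T φ` is self-adjoint.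
The dictionary: a pair `(a, b)` of classes modulo squares is a vector with values in `U2 = E[2]`; `a = ∏ π_j^(x_j.1) mon u δ.1`, `b = ∏ π_j^(x_j.2) mon u δ.2`
up to squares; labels `h j = φ_j = (sy (q j) (u l))_l`, symbols `N p q = sy (q p) (π (q q))`.
-/

set_option autoImplicit false

namespace Pool.Agent.Q283.FT

open NumberField IsDedekindDomain Filter Topology Finset WeierstrassCurve Module
open Pool.Agent.Q283.LQ (Sm Box Nest nS)
open Pool.Agent.Q7.LK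
open Pool.Agent.Q283.EN (P_BASE P_LOC Alt BB)
open Q44.JQ (lawc)
open scoped Classical

/-! ## Linear algebra -/

/-- JOB DJS (linear algebra in dimension `2`). `om` is alternating and nondegenerate, the operators are self-adjoint.
Proof.  Components; `om x (opT c w φ y)` is symmetric in `x`, `y`: the matrix of `opT` is `(α + w) 1 + [[0, α + β], [α + γ, 0]]` with `α = dot φ (c 2)`, `β = dot φ (c 1)`,
`γ = dot φ (c 0)`; `decide` over `ZMod 2` after generalizing the values `dot φ _`. -/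
def S_DJS : Prop := ∀ (f : ℕ) (t₀ : Fin f) (c : Fin 3 → Fin f → ZMod 2) (w : Fin f → ZMod 2)
  (𝓛 : Submodule (ZMod 2) ((Fin f → U2) × (Fin f → U2))), (dj t₀ c w 𝓛).Sym ∧
    (∀ x, (∀ y, (dj t₀ c w 𝓛).ω x y = 0) → x = 0) ∧
    ∀ y : (Fin f → U2) × (Fin f → U2), (dj t₀ c w 𝓛).q y =
      dot (fun t => (y.2 t).1) (fun t => (y.1 t).2) + dot (fun t => (y.2 t).2) (fun t => (y.1 t).1) +
        dot (fun t => (y.2 t).1) (c 0 + c 2) + dot (fun t => (y.2 t).2) (c 1 + c 2)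

/-- JOB CLE (linear algebra). A totally singular subspace has at most `4^f` elements.
Proof.  The polar form of `q` (see `S_DJS`) on `(Fin f → U2) × (Fin f → U2)` (dimension `4 f`) is `(y, y') ↦ ∑_t (om (y.2 t) (y'.1 t) + om (y'.2 t) (y.1 t))` plus a form in the second components that is
symmetric..: directly from the formula of `S_DJS`: `q (y + y') - q y - q y'` is the nondegenerate alternating form
`dot y₂₁ y'₁₂ + dot y'₂₁ y₁₂ + dot y₂₂ y'₁₁ + dot y'₂₂ y₁₁`; `𝓛` is contained in its orthogonal, `dim 𝓛 ≤ 2 f`.  Compare `Pool/Agent/Q283/FT/D/NInvA.lean` (`pol_orth`). -/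
def S_CLE : Prop := ∀ (f : ℕ) (t₀ : Fin f) (c : Fin 3 → Fin f → ZMod 2) (w : Fin f → ZMod 2)
  (𝓛 : Submodule (ZMod 2) ((Fin f → U2) × (Fin f → U2))), (∀ y ∈ 𝓛, (dj t₀ c w 𝓛).q y = 0) → Nat.card 𝓛 ≤ 4 ^ f

/-- JOB IRR (linear algebra). The operators of one curve generate all endomorphisms.
Proof.  The matrix of `opT c w φ` is `(α + w) 1 + [[0, α + β], [α + γ, 0]]` (see `S_DJS`); `c 2 + c 1`, `c 2 + c 0` are different and not `0`, hence linearly independent over `F_2`, so there are `φ` with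
`(α + β, α + γ) = (1, 0)` and `(0, 1)`.  The adjoin contains the scalars, so it contains the matrix units `E₁₂`, `E₂₁` and their products: everything. -/
def S_IRR : Prop := ∀ (f : ℕ) (c : Fin 3 → Fin f → ZMod 2) (w : Fin f → ZMod 2), Function.Injective c →
  Algebra.adjoin (ZMod 2) (Set.range fun φ : Fin f → ZMod 2 => (opT c w φ : Module.End (ZMod 2) U2)) = ⊤

/-- JOB ISO (linear algebra). Isomorphisms of the modules of two curves.
Proof.  `x ↦ opT c w φ x + (dot φ w) x` is the sum of `dot φ (c l)` times the transvections `τ_l x = om x v_l • v_l`, `v_2 = (1, 1)`, `v_1 = (1, 0)`, `v_0 = (0, 1)`, and `τ_0 + τ_1 + τ_2 = 1`,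
`τ_0, τ_1, τ_2` are linearly independent.  `g` permutes the three nonzero vectors (`g v_l = v_(σ l)`) and preserves `om`, so `g τ_l g⁻¹ = τ_(σ l)`; compare coefficients for `φ = Pi.single t 1`. -/
def S_ISO : Prop := ∀ (f : ℕ) (c c' : Fin 3 → Fin f → ZMod 2) (w : Fin f → ZMod 2),
  (∃ g : U2 ≃ₗ[ZMod 2] U2, ∀ φ x, g (opT c w φ x) = opT c' w φ (g x)) → ∃ σ : Equiv.Perm (Fin 3), ∀ l, c l = c' (σ l)

/-- JOB ADJ (uses `S_IRR`, `S_ISO`, `Pool.Agent.Q153.JQ.t_ADJ0 : Q44.JQ.S_ADJ0`). The operators of several curves.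
Proof.  `S_ADJ0` with `T k = opT (c k) w`; in `Adj` the condition `sgz φ t₀ = 0` is always true. -/
def S_ADJ : Prop := ∀ (f : ℕ) (κ : Type) [Fintype κ] (t₀ : Fin f) (c : κ → Fin 3 → Fin f → ZMod 2) (w : Fin f → ZMod 2)
  (𝓛 : κ → Submodule (ZMod 2) ((Fin f → U2) × (Fin f → U2))), (∀ k, Function.Injective (c k)) →
  (∀ k k', k ≠ k' → ¬ ∃ σ : Equiv.Perm (Fin 3), ∀ l, c k l = c k' (σ l)) →
  Adj (V := fun _ : κ => U2) t₀ fun k => dj t₀ (c k) w (𝓛 k)

/-! ## Tables -/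

/-- JOB LBS (only Mathlib). Every label occurs often.
Proof.  For `1 ≤ k` the number of the `φ` with `∑ φ = ψ` is `2^(f (k - 1))` (the last `k - 1` components are free).  For a fixed label `χ` the number of the `φ` with fewer than `R` indices `i ≥ 1` with
`φ i = χ` is at most `∑_(j < R) C(k - 1, j) (2^f - 1)^(k - 1 - j)`, so the share is at most `∑_(j < R) k^j (1 - 2^(-f))^(k - 1 - j) → 0`; union over the `2^f` labels. -/
def S_LBS : Prop := ∀ (f R : ℕ) (ε : ℝ), 0 < ε → ∃ k0 : ℕ, ∀ k, k0 ≤ k → ∀ ψ : Fin f → ZMod 2,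
  ((univ.filter fun φ : Fin k → Fin f → ZMod 2 => ∑ j, (1 : ZMod 2) • φ j = ψ ∧
      ∃ χ, (univ.filter fun i => φ i = χ).card < R).card : ℝ) ≤
    ε * ((univ.filter fun φ : Fin k → Fin f → ZMod 2 => ∑ j, (1 : ZMod 2) • φ j = ψ).card : ℝ)

/-- JOB TBF (uses `f_LAJ` in `Core.lean`). The joint law for fixed labels.
Proof.  `f_LAJ` with `s = Fin f`, `U = Empty`, `ι = Fin k`, the block `A, B, C` empty, `hJ = φ`: `Bk.Ok t₀ ρ R` holds (`nd` is empty: `μ = 0`; `many`: `Fintype.card Empty = 0`).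
`prs (univ : Finset (Fin k))` is the type of the pairs `i < j` (a bijection with `{x : Fin k × Fin k // x.1 < x.2}`), `ext α i j` is the symmetric extension, and `Sel (D l) (b.N t₀ α) b.h` on `Empty ⊕ Fin k` is
isomorphic to `Sel (D l) (NT (φ, t)) φ` on `Fin k` (reindexing by `Equiv.emptySum`; `Mt (fun _ _ => 0) τ q p` is symmetric, the diagonal entry does not matter: it is multiplied by `x_p + x_p = 0`).
`nSel = 2 ^ finrank`, `finrank U2 = 2`. -/
def S_TBF : Prop := ∀ (f : ℕ) (κ : Type) [Fintype κ] (t₀ : Fin f) (D : κ → Dj (Fin f) U2) (ρ : Fin f → ZMod 2),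
  (∀ l, (D l).s₀ = t₀) → (∀ l, (D l).Ok ρ) → Adj (V := fun _ : κ => U2) t₀ D → ∀ (r : κ → ℕ) (ε : ℝ), 0 < ε →
  ∃ R : ℕ, ∀ (k : ℕ) (φ : Fin k → Fin f → ZMod 2), ∑ j, φ j = ρ → (∀ χ, R ≤ (univ.filter fun i => φ i = χ).card) →
    |((univ.filter fun t : {x : Fin k × Fin k // x.1 < x.2} → ZMod 2 => ∀ l, nSel (D l) (φ, t) = 4 * 2 ^ r l).card : ℝ) -
      (∏ l, lawc ((finrank (ZMod 2) (D l).pm : ℕ) : ZMod 2) (r l)) *
        (Fintype.card ({x : Fin k × Fin k // x.1 < x.2} → ZMod 2) : ℝ)| ≤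
      ε * (Fintype.card ({x : Fin k × Fin k // x.1 < x.2} → ZMod 2) : ℝ)

/-- JOB TBL (uses `S_LBS`, `S_TBF`). The joint law for the tables.
Proof.  Sum over `φ`: for the `φ` in which every label occurs at least `R` times `S_TBF` (with `ε / 3`), the others are few (`S_LBS` with `ε / 3`); the product of the laws is between `0` and `1`
(`Q44.JQ.M.hasSum_lawc` in `Pool/Agent/Q44/JQ/M`, nonnegative terms). -/
def S_TBL : Prop := ∀ (f : ℕ) (κ : Type) [Fintype κ] (t₀ : Fin f) (D : κ → Dj (Fin f) U2) (ρ : Fin f → ZMod 2),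
  (∀ l, (D l).s₀ = t₀) → (∀ l, (D l).Ok ρ) → Adj (V := fun _ : κ => U2) t₀ D → ∀ (r : κ → ℕ) (ε : ℝ), 0 < ε →
  ∃ k0 : ℕ, ∀ k, k0 ≤ k →
    |((univ.filter fun τ : Tab 2 f k => ∑ j, (1 : ZMod 2) • τ.1 j = ρ ∧ ∀ l, nSel (D l) τ = 4 * 2 ^ r l).card : ℝ) -
      (∏ l, lawc ((finrank (ZMod 2) (D l).pm : ℕ) : ZMod 2) (r l)) *
        ((univ.filter fun τ : Tab 2 f k => ∑ j, (1 : ZMod 2) • τ.1 j = ρ).card : ℝ)| ≤
      ε * ((univ.filter fun τ : Tab 2 f k => ∑ j, (1 : ZMod 2) • τ.1 j = ρ).card : ℝ)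

/-- JOB TPA (uses `f_PAR0` in `Core.lean`). The number of the solutions is a power of `2` with an exponent of the given parity.
Proof.  `nSel = 2 ^ finrank (Sel ..)`; `f_PAR0` with `P = Fin k`, `N = NT τ`; `Rec`: `Mt (fun _ _ => 0) τ` is symmetric, `sgz = 0`. -/
def S_TPA : Prop := ∀ (f : ℕ) (D : Dj (Fin f) U2) (ρ : Fin f → ZMod 2), D.Ok ρ → ∀ (k : ℕ) (τ : Tab 2 f k),
  ∃ n : ℕ, nSel D τ = 2 ^ n ∧ ((n : ℕ) : ZMod 2) = ((finrank (ZMod 2) D.pm : ℕ) : ZMod 2)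

/-- JOB TUB (uses `S_DJS`; `C.t_PROB`, `B.t_ORT` in `Pool/Agent/Q283/FT`). The mean number of the solutions is bounded for all labels.
Proof.  `C.t_PROB` (with `U = Empty`, `ι = Fin k`, as in `S_TBF`) for every `e = (δ, x)`: the share of the `t` for which `e` satisfies the rows is at most `4^(-k) #{W : ∀ i j, om (W_i + W_j) (x_i + x_j) = 0}`.
Summing over `e` (at most `4^f` vectors `δ`): `4^(f - k)` times the number of the families `Z_i = (x_i, W_i)` of elements of `U2 × U2` which are pairwise unlinked.  By `B.t_ORT` such a family lies in a coset of a subspace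
of at most `4` elements of `U2 × U2` (16 elements): at most `2^16 · 16 · 4^k` families (or fewer).  So `C = 2^20 4^f`.  Alternatively a direct proof. -/
def S_TUB : Prop := ∀ f : ℕ, ∃ C : ℝ, ∀ (t₀ : Fin f) (c : Fin 3 → Fin f → ZMod 2) (w : Fin f → ZMod 2)
  (𝓛 : Submodule (ZMod 2) ((Fin f → U2) × (Fin f → U2))) (k : ℕ) (φ : Fin k → Fin f → ZMod 2),
  ∑ t : {x : Fin k × Fin k // x.1 < x.2} → ZMod 2, (nSel (dj t₀ c w 𝓛) (φ, t) : ℝ) ≤
    C * (Fintype.card ({x : Fin k × Fin k // x.1 < x.2} → ZMod 2) : ℝ)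

/-- JOB TRM (uses `EN.S_TRF`, proved: `Pool.Agent.Q283.EN`, see `All.lean`; `LK.S_NEST`). Means, from the tables to the ensemble.
Proof.  `k ≥ 1` fixed; `n τ` takes finitely many values; `S_TRF` with `P τ = (n τ = m)` for all the values `m` at once (the quantifier over `P` is inside `Nest`) and with an `ε'` which is small in terms of `k`, `n`:
`∑_(q ∈ B) N q ≤ ∑_m m #{q : ∃ τ, Tb τ q ∧ n τ = m}`. -/
def S_TRM : Prop := ∀ (F : Type) [Field F] [NumberField F] (ζ : F), IsPrimitiveRoot ζ 2 →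
  ∀ (y f : ℕ) (u r : Fin f → F) (π : HeightOneSpectrum (𝓞 F) → F) (g : (Fin f → ZMod 2) → (Fin f → ZMod 2) → ZMod 2),
  Base 2 ζ y f u r π g → ∀ (D0 : F) (ψ w : Fin f → ZMod 2), D0 ≠ 0 → Nn 2 y (D0 * mon r ψ * mon u w) →
  ∀ (k : ℕ), 1 ≤ k → ∀ (n : Tab 2 f k → ℕ) (C : ℝ),
    ∑ τ ∈ univ.filter (fun τ : Tab 2 f k => ∑ j, (1 : ZMod 2) • τ.1 j = ψ), (n τ : ℝ) ≤
      C * ((univ.filter (fun τ : Tab 2 f k => ∑ j, (1 : ZMod 2) • τ.1 j = ψ)).card : ℝ) → Nest k fun X =>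
    ∀ (B : Finset (Fin k → HeightOneSpectrum (𝓞 F))) (N : (Fin k → HeightOneSpectrum (𝓞 F)) → ℕ),
      (∀ q ∈ B, q ∈ (Box y X : Set (Fin k → HeightOneSpectrum (𝓞 F)))) → (∀ q ∈ B, ∃ D, Fits 2 y D0 (fun _ => 1) q D) →
      (∀ q ∈ B, ∃ τ, Tb ζ u π τ q ∧ N q = n τ) →
      ∑ q ∈ B, (N q : ℝ) ≤ (C + 1) *
        ({q ∈ (Box y X : Set (Fin k → HeightOneSpectrum (𝓞 F))) | ∃ D, Fits 2 y D0 (fun _ => 1) q D}.ncard : ℝ)

/-- JOB MLC (only Mathlib; `lawc` is in `Pool/Agent/Q44/JQ/StmB.lean`, `law2` in `Pool/Agent/Q269/SL`). From the law to the mean.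
Proof.  As `EN.S_MLAW` (`t_MLAW`): `j ↦ j lawc c j` is nonnegative and summable; the `q` with `r q ≤ R` contribute at most `∑_(j ≤ R) j (lawc c j + δ) #T`, the others, since `j / 2^j ≤ (R + 1) / 2^(R + 1)` for `j > R`, at most
`(R + 1) / 2^(R + 1) · C #T`. -/
def S_MLC : Prop := ∀ (c : ZMod 2) (C ε : ℝ), 0 < ε → ∃ (R : ℕ) (δ : ℝ), 0 < δ ∧
  ∀ (α : Type) (T : Finset α) (r : α → ℕ),
    (∀ j ≤ R, |((T.filter (fun q => r q = j)).card : ℝ) - lawc c j * (T.card : ℝ)| ≤ δ * (T.card : ℝ)) →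
    ∑ q ∈ T, (2 : ℝ) ^ r q ≤ C * (T.card : ℝ) → ∑ q ∈ T, (r q : ℝ) ≤ (∑' j : ℕ, (j : ℝ) * lawc c j + ε) * (T.card : ℝ)

/-- JOB NMC (numerical; `Pool.Agent.Q269.SL.law2_eq`, `EN.S_NUMA`, template `t_NUMA`). `lawc 0 0 = 0.41942..`, `lawc 1 1 = 0.83884..`, means `1.2039..` and `1.3250..`.
Proof.  `lawc c e = β 2^e / ∏_(i ≤ e) (2^i - 1)` for `e = c` modulo `2`, `β = al 2 0` (`0.4194 < β < 0.4195` by `EN.t_NUMA`).  Means: `β (2 · 4/3 + 4 · 16/315 + ..)`, `β (2 + 3 · 8/21 + 5 · 32/9765 + ..)`, geometric bound of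
the rest. -/
def S_NMC : Prop := (0.4194 < lawc 0 0 ∧ lawc 0 0 < 0.4195) ∧ (0.8388 < lawc 1 1 ∧ lawc 1 1 < 0.839) ∧
  ∑' j : ℕ, (j : ℝ) * lawc 0 j < 1.21 ∧ ∑' j : ℕ, (j : ℝ) * lawc 1 j < 1.33

/-! ## The classes at the small places -/

/-- JOB G0 (uses `EN.S_FRM`, `LK.S_BAS`; all proved, see `Pool/Agent/Q283/EN/All.lean`). Generators for which the reciprocity is symmetric.
Proof.  `u, r, π, g` from `P_BASE`; `Alt g` and the formula for the sums of the Hilbert symbols from `EN.S_FRM`.  Let `(β φ)_m = ∑_(l < m) g e_l e_m φ_l` (`e_l` the unit vectors), so `g φ φ' = dot φ' (β φ) + dot φ (β φ')` (`g` is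
bilinear and alternating).  Replace `π q` by `π q * mon u (β φ_q)` and `r l` by `r l * mon u (β e_l)`: the symbols `sy q' (π q)` change by `dot φ_q' (β φ_q)` (`Base.uo`, `S_BAS` (7)), so the new `g` is `g + g = 0`;
`mon r' φ` is `mon r φ mon u (β φ)` up to squares; `pc`, `cls` (`x ↦ (x.1, x.2 + β x.1)` is a bijection), `po`.  `Frm`: `EN.S_FRM` for the new `Base`.  `f ≤ nS + r2`: `p^(2f)` inequivalent elements by `cls` and `P_LOC`,
`[F : ℚ] = 2 r2` (`F` is totally complex since `i ∈ F`; see the proof of `EN.S_EEX`), and `r2 ≥ 1`. -/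
def S_G0 : Prop := ∀ (F : Type) [Field F] [NumberField F] (i ζ : F), i ^ 2 = -1 → IsPrimitiveRoot ζ 2 →
  P_BASE 2 F ζ → P_LOC 2 F → ∀ t : HeightOneSpectrum (𝓞 F) → F → F → ZMod 2, Hilb 2 ζ t → ∃ y0 : ℕ, ∀ y, y0 ≤ y →
  ∃ (f : ℕ) (u r : Fin f → F) (π : HeightOneSpectrum (𝓞 F) → F), Base 2 ζ y f u r π (fun _ _ => 0) ∧ Frm t y u r ∧
    f = InfinitePlace.nrComplexPlaces F + nS F y ∧ 1 ≤ f ∧ {v : HeightOneSpectrum (𝓞 F) | Sm y v}.Finite

/-- JOB SBM (uses `LK.S_BAS`). The subspace of the classes with the conditions `A v`.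
Proof.  (Template: the proof of `EN.S_EEX`.)  `𝓛` = the set of the `z` such that the pairs `(a, b)` with the classes `((z.2 ·).1, (z.1 ·).1)`, `((z.2 ·).2, (z.1 ·).2)` (`Base.cls`; for example `a = (mon r x.1 mon u x.2)⁻¹`) are in
`A v` for all small `v`; independent of the choice of `a`, `b` (`LocP.mul`, `LocP.pow`, `S_BAS`); closed under addition (`LocP.mul`; `mon r (x + x')` and `mon r x mon r x'` differ by a square), contains `0`. -/
def S_SBM : Prop := ∀ (F : Type) [Field F] [NumberField F] (ζ : F), IsPrimitiveRoot ζ 2 →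
  ∀ (y f : ℕ) (u r : Fin f → F) (π : HeightOneSpectrum (𝓞 F) → F), Base 2 ζ y f u r π (fun _ _ => 0) →
  ∀ A : HeightOneSpectrum (𝓞 F) → F → F → Prop, LocP y A →
  ∃ 𝓛 : Submodule (ZMod 2) ((Fin f → U2) × (Fin f → U2)), Mem y u r A 𝓛

/-- JOB CGE (uses `LK.S_BAS`). The number of the classes.
Proof.  (Template: the proof of `EN.S_EEX`, the part about the number.)  For every family `(b_v) ∈ ∏_(Sm y v) B v` choose by approximation `a, a' ∈ F^*` with `Lpw 2 v (a / b_v.1)`, `Lpw 2 v (a' / b_v.2)` for all small `v`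
(`S_BAS` (6)); the class of `(a, a')` is in `𝓛` (`LocP.mul`, `LocP.pow`, `Mem`), and different families give different classes (`Nn 2 y`). -/
def S_CGE : Prop := ∀ (F : Type) [Field F] [NumberField F] (ζ : F), IsPrimitiveRoot ζ 2 →
  ∀ (y f : ℕ) (u r : Fin f → F) (π : HeightOneSpectrum (𝓞 F) → F), Base 2 ζ y f u r π (fun _ _ => 0) →
  {v : HeightOneSpectrum (𝓞 F) | Sm y v}.Finite →
  ∀ A : HeightOneSpectrum (𝓞 F) → F → F → Prop, LocP y A →
  ∀ 𝓛 : Submodule (ZMod 2) ((Fin f → U2) × (Fin f → U2)), Mem y u r A 𝓛 → ∀ n : HeightOneSpectrum (𝓞 F) → ℕ,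
  (∀ v, Sm y v → ∃ B : Finset (F × F), 2 ^ n v ≤ B.card ∧ (∀ b ∈ B, A v b.1 b.2) ∧
    ∀ b ∈ B, ∀ b' ∈ B, b ≠ b' → ¬ (Lpw 2 v (b.1 / b'.1) ∧ Lpw 2 v (b.2 / b'.2))) →
  2 ^ (∑ᶠ v : {v : HeightOneSpectrum (𝓞 F) // Sm y v}, n v.1) ≤ Nat.card 𝓛

/-- JOB SNG (uses `S_DJS`, `LK.S_BAS`). The subspace is singular.
Proof.  For `z ∈ 𝓛` let `(a, b)` be a pair with this class (`Base.cls`).  By `S_DJS` and `Frm` (`(0, c l)` is the class of `df e l`: `df e l * mon u (c l)` is a square, `S_BAS` (3)) `q z` is the sum over the small places of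
`t v a b + t v a (df e 0 * df e 2) + t v b (df e 1 * df e 2)` (`Hilb.mul`, `Hilb.anti` for the second argument). -/
def S_SNG : Prop := ∀ (F : Type) [Field F] [NumberField F] (ζ : F), IsPrimitiveRoot ζ 2 →
  ∀ t : HeightOneSpectrum (𝓞 F) → F → F → ZMod 2, Hilb 2 ζ t →
  ∀ (y f : ℕ) (u r : Fin f → F) (π : HeightOneSpectrum (𝓞 F) → F), Base 2 ζ y f u r π (fun _ _ => 0) → Frm t y u r →
  {v : HeightOneSpectrum (𝓞 F) | Sm y v}.Finite →
  ∀ (e : Fin 3 → F) (c : Fin 3 → Fin f → ZMod 2), Rt e → Dcl u e c →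
  ∀ A : HeightOneSpectrum (𝓞 F) → F → F → Prop, LocP y A →
  (∀ v a b, Sm y v → A v a b → t v a b + t v a (df e 0 * df e 2) + t v b (df e 1 * df e 2) = 0) →
  ∀ 𝓛 : Submodule (ZMod 2) ((Fin f → U2) × (Fin f → U2)), Mem y u r A 𝓛 →
  ∀ (t₀ : Fin f) (w : Fin f → ZMod 2), ∀ z ∈ 𝓛, (dj t₀ c w 𝓛).q z = 0

/-- JOB TRS (uses `LK.S_BAS`). The torsion.
Proof.  The class of `D0` is `(ψ, w)`, that of `df e l` is `(0, c l)`.  For `x = (0, 1)` the pair `(df e 1 * df e 2, D0 * df e 2)`, for `x = (1, 0)` `(D0 * df e 2, df e 0 * df e 2)`, for `x = (1, 1)`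
`(D0 * df e 1, D0 * df e 0)`, for `x = 0` `(1, 1)` satisfies `TX v (twi D0 e)` for all `v` (`S_BAS` (3): squares are `Lpw`), and its class is `((opT c w (Pi.single t 1) x)_t, (ψ t • x)_t)`. -/
def S_TRS : Prop := ∀ (F : Type) [Field F] [NumberField F] (ζ : F), IsPrimitiveRoot ζ 2 →
  ∀ (y f : ℕ) (u r : Fin f → F) (π : HeightOneSpectrum (𝓞 F) → F), Base 2 ζ y f u r π (fun _ _ => 0) →
  ∀ (e : Fin 3 → F) (c : Fin 3 → Fin f → ZMod 2), Rt e → Dcl u e c →
  ∀ (D0 : F) (ψ w : Fin f → ZMod 2), D0 ≠ 0 → Nn 2 y (D0 * mon r ψ * mon u w) →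
  ∀ A : HeightOneSpectrum (𝓞 F) → F → F → Prop, (∀ v a b, Sm y v → TX v (twi D0 e) a b → A v a b) →
  ∀ 𝓛 : Submodule (ZMod 2) ((Fin f → U2) × (Fin f → U2)), Mem y u r A 𝓛 →
  ∀ x : U2, ((fun t => opT c w (Pi.single t 1) x), (fun t => ψ t • x)) ∈ 𝓛

/-- JOB SXX (uses `LK.S_BAS`, `LK.S_SH1`; template: the proof of `EN.S_SSX`). The classes are the solutions of the table.
Proof.  Let `D` fit: `D` is `∏ π (q j) mon u w` up to squares (`Base.full`, `Base.ind`, `LK.S_SH1`).  A pair `(a, b)` with `CondP` is up to squares `(∏ π (q j)^(x_j.1) mon u δ.1, ∏ π (q j)^(x_j.2) mon u δ.2)` with unique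
`x_j = (vl (q j) a, vl (q j) b)` and `δ` (`CondP.unr`, `Base.full`, `Base.ind`), its class is `(δ, (∑_j φ_j t x_j)_t)` (`Base.pc`), so `CondP.loc` is the condition `clL ∈ 𝓛` (`Mem`).  The condition `TX` at `q p` for
`twi D e`: comparing the orders, the torsion class must be that of `x_p`, and the remaining condition says that `a D^(x_p.1) ..` have the symbol `0` at `q p` (`S_BAS` (7)); as `sy (q p) (π (q q)) = NT τ p q` for
`q ≠ p`, `sy (q p) (mon u v) = dot φ_p v`, this is the equation `rowL .. p = 0` (`opT` with `w`; `df e l` has the symbol `dot φ_p (c l)`).  Conversely every solution gives a pair.  Two pairs have the same solution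
iff they differ by squares. -/
def S_SXX : Prop := ∀ (F : Type) [Field F] [NumberField F] (i ζ : F), i ^ 2 = -1 → IsPrimitiveRoot ζ 2 →
  ∀ (y f : ℕ) (u r : Fin f → F) (π : HeightOneSpectrum (𝓞 F) → F), Base 2 ζ y f u r π (fun _ _ => 0) →
  ∀ (e : Fin 3 → F) (c : Fin 3 → Fin f → ZMod 2), Rt e → Dcl u e c →
  ∀ A : HeightOneSpectrum (𝓞 F) → F → F → Prop, ∀ 𝓛 : Submodule (ZMod 2) ((Fin f → U2) × (Fin f → U2)), Mem y u r A 𝓛 →
  ∀ (D0 : F) (ψ w : Fin f → ZMod 2), D0 ≠ 0 → Nn 2 y (D0 * mon r ψ * mon u w) → ∀ t₀ : Fin f,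
  ∀ (k : ℕ) (q : Fin k → HeightOneSpectrum (𝓞 F)), Function.Injective q → (∀ i, ¬ Sm y (q i)) →
  ∀ τ : Tab 2 f k, Tb ζ u π τ q → ∀ D : F, Fits 2 y D0 (fun _ => 1) q D →
  ∀ N : ℕ, HasN2 (CondP y A e D) N ↔ N = nSel (dj t₀ c w 𝓛) τ

end Pool.Agent.Q283.FT
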