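import Pool.Agent.Q283.FT.MainA
import Pool.Agent.Q153.EN.QLAW

/-!
# Project FT: the main theorem
-/

set_option autoImplicit false

namespace Pool.Agent.Q283.FT

open NumberField IsDedekindDomain Filter Topology Finset WeierstrassCurve Module
open Pool.Agent.Q283.LQ (Sm Box Nest nS)
open Pool.Agent.Q7.LK
open Pool.Agent.TH841.SH.D (Coch Pt act Gal IsCoc IsCob LocTriv)
open Pool.Agent.TH841.NF.D (Sha IsShaCoc)
open Pool.Agent.Q283.EN (P_BASE P_LOC)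
open Q44.JQ (lawc)
open scoped Classical

/-- the tuples of primes to which a `D` belongs -/
def Ens {F : Type} [Field F] [NumberField F] (y : ℕ) (D0 : F) {k : ℕ} (X : Fin k → ℕ) :
    Set (Fin k → HeightOneSpectrum (𝓞 F)) :=
  {q ∈ (Box y X : Set (Fin k → HeightOneSpectrum (𝓞 F))) | ∃ D, Fits 2 y D0 (fun _ => 1) q D}

/-- the parity of the exponent for the twist by `D0` -/
noncomputable def par {F : Type} [Field F] [NumberField F] (D0 : F) (e : Fin 3 → F) : ZMod 2 := (rk2 (twi D0 e) : ZMod 2)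

/-- **The main theorem of the project.** -/
def S_FMAIN : Prop := ∀ (F : Type) [Field F] [NumberField F] (i : F), i ^ 2 = -1 →
  (∀ e : Fin 3 → F, Rt e → Finite (S2 e) ∧ HasN2 (SC e) (2 ^ (rk2 e + 2)) ∧
    2 ^ finrank ℤ (Pt (crv e) F) * Nat.card (S2 e) = 2 ^ rk2 e ∧
    (rk2 e = 0 ↔ Finite (Pt (crv e) F) ∧ ∀ (n : ℕ) (x : Sha (crv e)), 2 ^ n • x = 0 → x = 0)) ∧
  ∀ (κ : Type) [Fintype κ] (e : κ → Fin 3 → F), (∀ l, Rt (e l)) → (∀ l, NoFour (e l)) →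
  (∀ l l', l ≠ l' → ¬ Matched (e l) (e l')) → ∃ y0 : ℕ, ∀ y, y0 ≤ y → ∀ D0 : F, D0 ≠ 0 →
  (∀ D : F, D ≠ 0 → (∀ v : HeightOneSpectrum (𝓞 F), Sm y v → Lpw 2 v (D / D0)) → ∀ l,
    (rk2 (twi D (e l)) : ZMod 2) = par D0 (e l)) ∧
  ∃ C : ℝ, ∀ ε : ℝ, 0 < ε → ∃ k0 : ℕ, ∀ k, k0 ≤ k → Nest k fun X =>
    (Ens y D0 X).Finite ∧ 0 < ((Ens y D0 X).ncard : ℝ) ∧
    (∀ (q : Fin k → HeightOneSpectrum (𝓞 F)) (D D' : F), Fits 2 y D0 (fun _ => 1) q D → Fits 2 y D0 (fun _ => 1) q D' →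
      IsPow 2 (D' / D) ∧ ∀ l, (∀ a b, SC (twi D (e l)) a b ↔ SC (twi D' (e l)) a b) ∧
        rk2 (twi D' (e l)) = rk2 (twi D (e l))) ∧
    (∀ 𝒜 : Set (κ → ℕ), |({q ∈ Ens y D0 X | ∀ D, Fits 2 y D0 (fun _ => 1) q D →
        (fun l => rk2 (twi D (e l))) ∈ 𝒜}.ncard : ℝ) -
      (∑' g : κ → ℕ, if g ∈ 𝒜 then ∏ l, lawc (par D0 (e l)) (g l) else 0) * ((Ens y D0 X).ncard : ℝ)| ≤
        ε * ((Ens y D0 X).ncard : ℝ)) ∧
    ∀ (T : Finset (Fin k → HeightOneSpectrum (𝓞 F))) (D : (Fin k → HeightOneSpectrum (𝓞 F)) → F),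
      (∀ q, q ∈ T ↔ q ∈ Ens y D0 X) → (∀ q ∈ T, Fits 2 y D0 (fun _ => 1) q (D q)) → ∀ l,
      |∑ q ∈ T, (rk2 (twi (D q) (e l)) : ℝ) - (∑' j : ℕ, (j : ℝ) * lawc (par D0 (e l)) j) * (T.card : ℝ)| ≤
        ε * (T.card : ℝ) ∧
      ∑ q ∈ T, (2 : ℝ) ^ rk2 (twi (D q) (e l)) ≤ C * (T.card : ℝ)

theorem lpw_self (hBAS : S_BAS) {F : Type} [Field F] [NumberField F] {D : F} (hD : D ≠ 0) (v : HeightOneSpectrum (𝓞 F)) :
    Lpw 2 v (D / D) := by
  have : Fact (Nat.Prime 2) := ⟨Nat.prime_two⟩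
  rw [div_self hD]
  have h := Pool.Agent.Q265.LK.lpw_pow hBAS (p := 2) v (one_ne_zero : (1 : F) ≠ 0)
  rwa [one_pow] at h

theorem sc_sq (hBAS : S_BAS) (hLCP : S_LCP) {F : Type} [Field F] [NumberField F] {i : F} (hi : i ^ 2 = -1) {e : Fin 3 → F}
    (he : Rt e) {D s : F} (hD : D ≠ 0) (hs : s ≠ 0) (a b : F) : SC (twi D e) a b → SC (twi (D * s ^ 2) e) a b := by
  have : Fact (Nat.Prime 2) := ⟨Nat.prime_two⟩
  intro h v
  have h1 := (hLCP F i hi (twi D e) (twi_rt hD he) v).2.2.1 a b (s ^ 2)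
    (Pool.Agent.Q265.LK.lpw_pow hBAS (p := 2) v hs) (h v)
  have h2 : twi (s ^ 2) (twi D e) = twi (D * s ^ 2) e := by
    funext j
    show s ^ 2 * (D * e j) = D * s ^ 2 * e j
    ring
  rwa [h2] at h1

theorem fmain (hBAS : S_BAS) (hBASE2 : EN.S_BASE2) (hLOC2 : EN.S_LOC2) (hHS22 : EN.S_HS22) (hUNQ : EN.S_UNQ)
    (hLCP : S_LCP) (hNEX : S_NEX) (hCNT : S_CNT2) (hTRV : S_TRV) (hFLAW : S_FLAW) (hTOT : S_TOT) (hMLC : S_MLC) :
    S_FMAIN := by
  intro F _ _ i hi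
  have : Fact (Nat.Prime 2) := ⟨Nat.prime_two⟩
  have hζ := EN.prim_neg F
  have hb : P_BASE 2 F (-1) := hBASE2 F i (-1) hi hζ
  have hl : P_LOC 2 F := hLOC2 F i hi
  obtain ⟨t, ht⟩ := hHS22 F i (-1) hi hζ
  have hex : ∀ {e : Fin 3 → F}, Rt e → Finite (S2 e) ∧ HasN2 (SC e) (2 ^ (rk2 e + 2)) ∧
      2 ^ finrank ℤ (Pt (crv e) F) * Nat.card (S2 e) = 2 ^ rk2 e :=
    fun he => exp_eq hNEX hCNT i (-1) hi hζ hb he
  refine ⟨fun e he => ⟨(hex he).1, (hex he).2.1, (hex he).2.2, rk2_zero hNEX hCNT hTRV i (-1) hi hζ hb he⟩, ?_⟩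
  intro κ _ e he h4 hM
  have hval : ∀ {e : Fin 3 → F} {n : ℕ}, Rt e → (HasN2 (SC e) (2 ^ (n + 2)) ↔ rk2 e = n) := by
    intro e n he
    constructor
    · intro h
      have h1 := hasN2_uniq (fun a b h => sc_ne a b h) (hex he).2.1 h
      have h2 := Nat.pow_right_injective (le_refl 2) h1
      omega
    · intro h
      have h1 := (hex he).2.1
      rwa [h] at h1
  obtain ⟨y1, hy1⟩ := hFLAW F i (-1) hi hζ hb hl t ht κ e he h4 hM
  obtain ⟨y2, hy2⟩ := hUNQ 2 F (-1) hb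
  refine ⟨max y1 y2, fun y hy D0 hD0 => ?_⟩
  obtain ⟨c, hc1, hc2, C, hc3⟩ := hy1 y (le_trans (le_max_left _ _) hy) D0 hD0
  obtain ⟨-, hun, -⟩ := hy2 y (le_trans (le_max_right _ _) hy)
  have hpar0 : ∀ D : F, D ≠ 0 → (∀ v : HeightOneSpectrum (𝓞 F), Sm y v → Lpw 2 v (D / D0)) → ∀ l,
      (rk2 (twi D (e l)) : ZMod 2) = c l := by
    intro D hD hDD l
    obtain ⟨n, hn, hn2⟩ := hc1 D hD hDD l
    rw [(hval (twi_rt hD (he l))).1 hn]
    exact hn2
  have hparc : ∀ l, par D0 (e l) = c l := fun l => hpar0 D0 hD0 (fun v _ => lpw_self hBAS hD0 v) l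
  refine ⟨fun D hD hDD l => (hpar0 D hD hDD l).trans (hparc l).symm, C / 4, fun ε hε => ?_⟩
  -- the parameters
  have hmt : ∀ l : κ, ∃ (R : ℕ) (δ : ℝ), 0 < δ ∧ ∀ (α : Type) (T : Finset α) (r : α → ℕ),
      (∀ j ≤ R, |((T.filter (fun q => r q = j)).card : ℝ) - lawc (c l) j * (T.card : ℝ)| ≤ δ * (T.card : ℝ)) →
      ∑ q ∈ T, (2 : ℝ) ^ r q ≤ C / 4 * (T.card : ℝ) →
      |∑ q ∈ T, (r q : ℝ) - (∑' j : ℕ, (j : ℝ) * lawc (c l) j) * (T.card : ℝ)| ≤ ε * (T.card : ℝ) :=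
    fun l => mean_two hMLC (c l) (C / 4) ε hε
  choose R δ hδ hmt' using hmt
  obtain ⟨η, hη, hηε, hηδ⟩ : ∃ η : ℝ, 0 < η ∧ η ≤ ε ∧ ∀ l, η ≤ δ l := by
    refine ⟨1 / (∑ l, 1 / δ l + 1 / ε), ?_, ?_, fun l => ?_⟩
    · have : 0 ≤ ∑ l, 1 / δ l := sum_nonneg fun l _ => (by have := hδ l; positivity)
      positivity
    · have h0 : 0 ≤ ∑ l, 1 / δ l := sum_nonneg fun l _ => (by have := hδ l; positivity)
      rw [div_le_iff₀ (by positivity)]
      have : ε * (∑ l, 1 / δ l + 1 / ε) = ε * ∑ l, 1 / δ l + 1 := by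
        rw [mul_add, mul_one_div_cancel hε.ne']
      rw [this]
      nlinarith
    · have h0 : 0 ≤ ∑ l, 1 / δ l := sum_nonneg fun l _ => (by have := hδ l; positivity)
      have h1 : 1 / δ l ≤ ∑ l, 1 / δ l :=
        single_le_sum (f := fun l => 1 / δ l) (fun l _ => (by have := hδ l; positivity)) (mem_univ l)
      have h2 := hδ l
      rw [div_le_iff₀ (by positivity)]
      have h3 : 1 ≤ δ l * ∑ l, 1 / δ l := by
        calc (1 : ℝ) = δ l * (1 / δ l) := by rw [mul_one_div_cancel h2.ne']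
          _ ≤ δ l * ∑ l, 1 / δ l := mul_le_mul_of_nonneg_left h1 h2.le
      have h5 : 0 < 1 / ε := by positivity
      nlinarith [mul_pos h2 h5]
  obtain ⟨G, θ, hθ, htot⟩ := hTOT κ c η hη
  choose K hK using fun g : κ → ℕ => hc2 g θ hθ
  refine ⟨∑ g ∈ insert 0 G, K g + 1, fun k hk => ?_⟩
  have hk1 : 1 ≤ k := by omega
  have hkg : ∀ g ∈ insert 0 G, K g ≤ k := fun g hg => by
    have := single_le_sum (f := K) (fun _ _ => Nat.zero_le _) hg
    omega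
  have hn1 := nest_all (insert 0 G) k _ fun g hg => hK g k (hkg g hg)
  have hn2 := nest_all (univ : Finset κ) k _ fun l _ => hc3 l k hk1
  refine Pool.Agent.Q7.LK.nest_mono k _ _ (fun X hX => ?_) (Pool.Agent.Q283.LQ.nest_and' k _ _ hn1 hn2)
  obtain ⟨hX1, hX2⟩ := hX
  obtain ⟨hfin, hpos, -⟩ := hX1 0 (mem_insert_self _ _)
  have hEfin : (Ens y D0 X).Finite := hfin.subset fun q hq => hq.1
  have hsq : ∀ (q : Fin k → HeightOneSpectrum (𝓞 F)) (D D' : F), Fits 2 y D0 (fun _ => 1) q D →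
      Fits 2 y D0 (fun _ => 1) q D' → ∃ s, s ≠ 0 ∧ D' = D * s ^ 2 := fun q D D' hD hD' =>
    Pool.Agent.Q153.EN.fits_sq hBAS hun hD0 hD hD'
  have heq : ∀ (q : Fin k → HeightOneSpectrum (𝓞 F)) (D D' : F), Fits 2 y D0 (fun _ => 1) q D →
      Fits 2 y D0 (fun _ => 1) q D' → ∀ l, (∀ a b, SC (twi D (e l)) a b ↔ SC (twi D' (e l)) a b) ∧
        rk2 (twi D' (e l)) = rk2 (twi D (e l)) := by
    intro q D D' hD hD' l
    obtain ⟨s, hs, h1⟩ := hsq q D D' hD hD'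
    obtain ⟨s', hs', h2⟩ := hsq q D' D hD' hD
    have h3 : ∀ a b, SC (twi D (e l)) a b ↔ SC (twi D' (e l)) a b := by
      intro a b
      constructor
      · intro h
        rw [h1]
        exact sc_sq hBAS hLCP hi (he l) hD.ne hs a b h
      · intro h
        rw [h2]
        exact sc_sq hBAS hLCP hi (he l) hD'.ne hs' a b h
    refine ⟨h3, ?_⟩
    have h5 := hasN2_congr h3 (hex (twi_rt hD.ne (he l))).2.1
    exact (hval (twi_rt hD'.ne (he l))).1 h5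
  -- the finite set of the tuples and a choice of the `D`
  have key : ∀ (T : Finset (Fin k → HeightOneSpectrum (𝓞 F))) (D : (Fin k → HeightOneSpectrum (𝓞 F)) → F),
      (∀ q, q ∈ T ↔ q ∈ Ens y D0 X) → (∀ q ∈ T, Fits 2 y D0 (fun _ => 1) q (D q)) →
      ∀ 𝒜 : Set (κ → ℕ), |((T.filter (fun q => (fun l => rk2 (twi (D q) (e l))) ∈ 𝒜)).card : ℝ) -
        (∑' g : κ → ℕ, if g ∈ 𝒜 then ∏ l, lawc (c l) (g l) else 0) * (T.card : ℝ)| ≤ η * (T.card : ℝ) := by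
    intro T D hT hD
    have hTE : (T : Set (Fin k → HeightOneSpectrum (𝓞 F))) = Ens y D0 X := by
      ext q
      rw [mem_coe]
      exact hT q
    have hcard : (Ens y D0 X).ncard = T.card := by rw [← hTE, Set.ncard_coe_finset]
    refine htot _ T (fun q l => rk2 (twi (D q) (e l))) fun g hg => ?_
    have h1 := (hX1 g (mem_insert_of_mem hg)).2.2
    have h2 : {q ∈ (Box y X : Set (Fin k → HeightOneSpectrum (𝓞 F))) | (∃ D, Fits 2 y D0 (fun _ => 1) q D) ∧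
        ∀ D, Fits 2 y D0 (fun _ => 1) q D → ∀ l, HasN2 (SC (twi D (e l))) (2 ^ (g l + 2))} =
        ((T.filter (fun q => (fun l => rk2 (twi (D q) (e l))) = g) : Finset _) :
          Set (Fin k → HeightOneSpectrum (𝓞 F))) := by
      ext q
      simp only [coe_filter, Set.mem_ofPred_eq]
      constructor
      · rintro ⟨hq, hd, hall⟩
        have hqT : q ∈ T := (hT q).2 ⟨hq, hd⟩
        refine ⟨hqT, funext fun l => ?_⟩
        exact (hval (twi_rt (hD q hqT).ne (he l))).1 (hall (D q) (hD q hqT) l)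
      · rintro ⟨hqT, hg'⟩
        have hq := (hT q).1 hqT
        refine ⟨hq.1, hq.2, fun D' hD' l => ?_⟩
        rw [hval (twi_rt hD'.ne (he l)), (heq q (D q) D' (hD q hqT) hD' l).2]
        exact congrFun hg' l
    have h3 : ({q ∈ (Box y X : Set (Fin k → HeightOneSpectrum (𝓞 F))) | ∃ D, Fits 2 y D0 (fun _ => 1) q D} : Set _).ncard =
        T.card := hcard
    rw [h2, h3, Set.ncard_coe_finset] at h1
    exact h1
  -- the canonical choice
  have hcan : ∃ (T : Finset (Fin k → HeightOneSpectrum (𝓞 F))) (D : (Fin k → HeightOneSpectrum (𝓞 F)) → F),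
      (∀ q, q ∈ T ↔ q ∈ Ens y D0 X) ∧ ∀ q ∈ T, Fits 2 y D0 (fun _ => 1) q (D q) := by
    have h1 : ∀ q, ∃ D : F, q ∈ Ens y D0 X → Fits 2 y D0 (fun _ => 1) q D := by
      intro q
      by_cases hq : q ∈ Ens y D0 X
      · obtain ⟨D, hD⟩ := hq.2
        exact ⟨D, fun _ => hD⟩
      · exact ⟨0, fun h => absurd h hq⟩
    choose D hD using h1
    exact ⟨hEfin.toFinset, D, fun q => Set.Finite.mem_toFinset _, fun q hq =>
      hD q ((Set.Finite.mem_toFinset _).1 hq)⟩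
  refine ⟨hEfin, hpos, fun q D D' hD hD' => ⟨?_, heq q D D' hD hD'⟩, fun 𝒜 => ?_, fun T D hT hD l => ?_⟩
  · obtain ⟨s, hs, rfl⟩ := hsq q D D' hD hD'
    exact ⟨s, by rw [mul_div_cancel_left₀ _ hD.ne]⟩
  · obtain ⟨T, D, hT, hD⟩ := hcan
    have h1 := key T D hT hD 𝒜
    have hTE : (T : Set (Fin k → HeightOneSpectrum (𝓞 F))) = Ens y D0 X := by
      ext q
      rw [mem_coe]
      exact hT q
    have hcard : (Ens y D0 X).ncard = T.card := by rw [← hTE, Set.ncard_coe_finset]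
    have h2 : {q ∈ Ens y D0 X | ∀ D, Fits 2 y D0 (fun _ => 1) q D → (fun l => rk2 (twi D (e l))) ∈ 𝒜} =
        ((T.filter (fun q => (fun l => rk2 (twi (D q) (e l))) ∈ 𝒜) : Finset _) :
          Set (Fin k → HeightOneSpectrum (𝓞 F))) := by
      ext q
      simp only [coe_filter, Set.mem_ofPred_eq]
      constructor
      · rintro ⟨hq, hall⟩
        exact ⟨(hT q).2 hq, hall (D q) (hD q ((hT q).2 hq))⟩
      · rintro ⟨hqT, hg'⟩
        refine ⟨(hT q).1 hqT, fun D' hD' => ?_⟩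
        have h3 : (fun l => rk2 (twi D' (e l))) = fun l => rk2 (twi (D q) (e l)) :=
          funext fun l => (heq q (D q) D' (hD q hqT) hD' l).2
        rw [h3]
        exact hg'
    rw [h2, hcard, Set.ncard_coe_finset]
    simp only [hparc]
    exact h1.trans (mul_le_mul_of_nonneg_right hηε (Nat.cast_nonneg _))
  · have hTE : (T : Set (Fin k → HeightOneSpectrum (𝓞 F))) = Ens y D0 X := by
      ext q
      rw [mem_coe]
      exact hT q
    have hcard : (Ens y D0 X).ncard = T.card := by rw [← hTE, Set.ncard_coe_finset]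
    have hsum : ∑ q ∈ T, (2 : ℝ) ^ rk2 (twi (D q) (e l)) ≤ C / 4 * (T.card : ℝ) := by
      have h1 := hX2 l (mem_univ l) T (fun q => 2 ^ (rk2 (twi (D q) (e l)) + 2)) (fun q hq => ((hT q).1 hq).1)
        (fun q hq => ⟨D q, hD q hq, (hex (twi_rt (hD q hq).ne (he l))).2.1⟩)
      have h2 : ({q ∈ (Box y X : Set (Fin k → HeightOneSpectrum (𝓞 F))) | ∃ D, Fits 2 y D0 (fun _ => 1) q D} : Set _).ncard =
        T.card := hcard
      rw [h2] at h1
      have h3 : ∑ q ∈ T, (((2 ^ (rk2 (twi (D q) (e l)) + 2) : ℕ)) : ℝ) =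
          4 * ∑ q ∈ T, (2 : ℝ) ^ rk2 (twi (D q) (e l)) := by
        rw [mul_sum]
        refine sum_congr rfl fun q _ => ?_
        push_cast
        ring
      rw [h3] at h1
      linarith
    refine ⟨?_, hsum⟩
    rw [hparc l]
    refine hmt' l _ T (fun q => rk2 (twi (D q) (e l))) (fun j _ => ?_) hsum
    have h1 := key T D hT hD {g | g l = j}
    refine le_trans (le_of_eq ?_) (h1.trans (mul_le_mul_of_nonneg_right (hηδ l) (Nat.cast_nonneg _)))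
    have h2 : (∑' g : κ → ℕ, if g ∈ {g : κ → ℕ | g l = j} then ∏ l, lawc (c l) (g l) else 0) = lawc (c l) j := by
      rw [← (marg c l j).tsum_eq]
      refine tsum_congr fun g => ?_
      by_cases h : g l = j
      · rw [if_pos h, if_pos (show g ∈ {g : κ → ℕ | g l = j} from h)]
      · rw [if_neg h, if_neg (show ¬ g ∈ {g : κ → ℕ | g l = j} from h)]
    have h3 : ((T.filter (fun q => rk2 (twi (D q) (e l)) = j)).card : ℝ) =
        ((T.filter (fun q => (fun l => rk2 (twi (D q) (e l))) ∈ {g : κ → ℕ | g l = j})).card : ℝ) := by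
      congr 1
    rw [h3, ← h2]
    congr!

end Pool.Agent.Q283.FT
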