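import Pool.Agent.Q283.EN.All
import Pool.Agent.Q164.FT.DJS
import Pool.Agent.Q223.FT.CLE
import Pool.Agent.Q198.FT.IRR
import Pool.Agent.Q214.FT.Iso
import Pool.Agent.Q214.FT.Lbs
import Pool.Agent.Q277.FT.ADJ
import Pool.Agent.Q277.FT.TPA
import Pool.Agent.Q96.FT.TBF
import Pool.Agent.Q96.FT.TBL
import Pool.Agent.Q65.FT.TUB
import Pool.Agent.Q65.FT.TRM
import Pool.Agent.Q65.FT.MWR
import Pool.Agent.Q149.FT.MLC
import Pool.Agent.Q149.FT.G0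
import Pool.Agent.Q129.FT.NMC
import Pool.Agent.Q150.FT.SBM
import Pool.Agent.Q154.FT.CGE
import Pool.Agent.Q31.FT.SNG
import Pool.Agent.Q79.FT.TRS
import Pool.Agent.Q150.FT.SXX
import Pool.Agent.Q176.FT.KUA
import Pool.Agent.Q64.FT.KUB
import Pool.Agent.Q151.FT.KUC
import Pool.Agent.Q151.FT.GDS
import Pool.Agent.Q238.FT.Axp
import Pool.Agent.Q192.FT.LCP
import Pool.Agent.Q192.FT.ISQ
import Pool.Agent.Q124.FT.STB
import Pool.Agent.Q124.FT.IDP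
import Pool.Agent.Q238.FT.Ide
import Pool.Agent.Q124.FT.GDU
import Pool.Agent.Q38.FT.GDR
import Pool.Agent.Q176.FT.KSA
import Pool.Agent.Q176.FT.FUL
import Pool.Agent.Q224.FT.KSB
import Pool.Agent.Q162.FT.KSL
import Pool.Agent.Q121.FT.CNT
import Pool.Agent.Q241.FT.TRV
import Pool.Agent.Q154.FT.FIT
import Pool.Agent.Q154.FT.NEX
import Pool.Agent.Q265.FT.TOT
import Pool.Agent.Q265.FT.LOK
import Pool.Agent.Q265.FT.FLAW
import Pool.Agent.Q53.FT.DCE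
import Pool.Agent.Q176.FT.RKQ
import Pool.Agent.Q176.FT.RKM
import Pool.Agent.Q283.FT.Main

/-!
# Project FT: all parts together
-/

set_option autoImplicit false

namespace Pool.Agent.Q283.FT

open Pool.Agent.Q7.LK (t_BAS t_CPL t_SH1)
open Pool.Agent.Q283.EN (t_FRM t_TRF t_LIX t_VAL t_BASE2 t_LOC2 t_HS22 t_UNQ)

theorem t_DJS : S_DJS := Pool.Agent.Q164.FT.djs
theorem t_CLE : S_CLE := Pool.Agent.Q223.FT.cle
theorem t_IRR : S_IRR := Pool.Agent.Q198.FT.irr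
theorem t_ISO : S_ISO := Pool.Agent.Q214.FT.iso
theorem t_ADJ : S_ADJ := Pool.Agent.Q277.FT.adj t_IRR t_ISO
theorem t_LBS : S_LBS := Pool.Agent.Q214.FT.lbs
theorem t_TBF : S_TBF := Pool.Agent.Q96.FT.tbf
theorem t_TBL : S_TBL := Pool.Agent.Q96.FT.tbl t_LBS t_TBF
theorem t_TPA : S_TPA := Pool.Agent.Q277.FT.tpa
theorem t_TUB : S_TUB := Pool.Agent.Q65.FT.tub
theorem t_TRM : S_TRM := Pool.Agent.Q65.FT.trm t_TRF
theorem t_MLC : S_MLC := Pool.Agent.Q149.FT.mlc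
theorem t_NMC : S_NMC := Pool.Agent.Q129.FT.nmc
theorem t_G0 : S_G0 := Pool.Agent.Q149.FT.g0 t_BAS t_FRM
theorem t_SBM : S_SBM := Pool.Agent.Q150.FT.sbm t_BAS
theorem t_CGE : S_CGE := Pool.Agent.Q154.FT.cge t_BAS
theorem t_SNG : S_SNG := Pool.Agent.Q31.FT.sng t_DJS t_BAS
theorem t_TRS : S_TRS := Pool.Agent.Q79.FT.trs t_BAS
theorem t_SXX : S_SXX := Pool.Agent.Q150.FT.sxx t_BAS t_SH1
theorem t_KUA : S_KUA := Pool.Agent.Q176.FT.KUA.kua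
theorem t_KUB : S_KUB := Pool.Agent.Q64.FT.kub t_KUA
theorem t_KUC : S_KUC := Pool.Agent.Q151.FT.kuc
theorem t_AXP : S_AXP := Pool.Agent.Q238.FT.axp
theorem t_LCP : S_LCP := Pool.Agent.Q192.FT.lcp t_KUA t_KUB t_AXP t_BAS t_CPL
theorem t_STB : S_STB := Pool.Agent.Q124.FT.stb t_BAS
theorem t_ISQ : S_ISQ := Pool.Agent.Q192.FT.isq t_KUA t_AXP t_STB t_BAS t_CPL
theorem t_IDP : S_IDP := Pool.Agent.Q124.FT.idp t_LIX t_VAL
theorem t_IDE : S_IDE := Pool.Agent.Q238.FT.ide t_IDP t_KUA t_KUB t_KUC t_AXP t_LCP t_BAS t_CPL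
theorem t_GDS : S_GDS := Pool.Agent.Q151.FT.gds
theorem t_GDU : S_GDU := Pool.Agent.Q124.FT.gdu t_AXP t_LCP t_IDE t_BAS t_CPL
theorem t_GDR : S_GDR := Pool.Agent.Q38.FT.gdr t_LCP t_CPL
theorem t_KSA : S_KSA := Pool.Agent.Q176.FT.ksa
theorem t_KSB : S_KSB := Pool.Agent.Q224.FT.ksb
theorem t_KSL : S_KSL := Pool.Agent.Q162.FT.ksl t_AXP
theorem t_MWR : S_MWR := Pool.Agent.Q65.FT.mwr
theorem t_CNT2 : S_CNT2 := Pool.Agent.Q121.FT.cnt t_KSA t_KSB t_KSL t_MWR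
theorem t_TRV : S_TRV := Pool.Agent.Q241.FT.trv t_MWR
theorem t_FUL : S_FUL := Pool.Agent.Q176.FT.ful t_LCP t_GDU t_GDR t_BAS
theorem t_FIT : S_FIT := Pool.Agent.Q154.FT.fit
theorem t_NEX : S_NEX := Pool.Agent.Q154.FT.nex t_BAS t_GDS t_GDU t_LCP
theorem t_TOT : S_TOT := Pool.Agent.Q265.FT.tot
theorem t_LOK : S_LOK := Pool.Agent.Q265.FTL.lok t_DJS t_CLE t_SBM t_CGE t_SNG t_TRS t_LCP t_ISQ t_IDE t_VAL t_BAS
theorem t_DCE : S_DCE := Pool.Agent.Q53.FT.dce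
theorem t_FLAW : S_FLAW := Pool.Agent.Q265.FT.flaw t_TBL t_TPA t_TUB t_TRM t_ADJ t_G0 t_SXX t_FUL t_FIT t_GDS t_LOK t_DCE t_CNT2 t_TRF
theorem t_RKQ : S_RKQ := Pool.Agent.Q176.FT.rkq t_MWR
theorem t_RKM : S_RKM := Pool.Agent.Q176.FT.rkm t_RKQ

theorem t_FMAIN : S_FMAIN := fmain t_BAS t_BASE2 t_LOC2 t_HS22 t_UNQ t_LCP t_NEX t_CNT2 t_TRV t_FLAW t_TOT t_MLC

end Pool.Agent.Q283.FT
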