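import Pool.Agent.Q283.FT.A.EU
import Pool.Agent.Q283.FT.A.PAR
import Pool.Agent.Q283.FT.A.PAR0
import Pool.Agent.Q283.FT.A.MAIN
import Pool.Agent.Q283.FT.B.TOR
import Pool.Agent.Q283.FT.B.GS
import Pool.Agent.Q283.FT.B.ORT
import Pool.Agent.Q283.FT.C.PROB
import Pool.Agent.Q283.FT.D.LAM
import Pool.Agent.Q283.FT.D.NINV
import Pool.Agent.Q283.FT.D.NMAX
import Pool.Agent.Q283.FT.E.SS
import Pool.Agent.Q283.FT.G.CNT
import Pool.Agent.Q283.FT.H.LAJ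

/-!
# Project FT: the joint law of the dimensions, without the sign (after project JQ of helper44)
-/

set_option autoImplicit false

namespace Pool.Agent.Q283.FT

theorem f_ID : S_ID := A.t_ID

theorem f_TOR : S_TOR := B.t_TOR

theorem f_PAR0 : S_PAR0 := A.t_PAR0 f_ID

theorem f_PI : S_PI := G.t_PI

theorem f_LAM : S_LAM :=
  D.t_LAM C.t_PROB (A.t_EU f_ID) (A.t_MAIN f_ID f_TOR) D.t_NINV D.t_NMAX B.t_ORT

theorem f_LAJ : S_LAJ :=
  H.t_LAJ f_LAM E.t_SS G.t_CNT (A.t_PAR f_ID) f_TOR f_PI Pool.Agent.Q81.JQ.t_MOM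

end Pool.Agent.Q283.FT
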