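import Pool.Agent.Q283.FT.StmB
import Pool.Agent.Q283.FT.StmI
import Pool.Agent.Q283.EN.Stm3

/-!
# Project FT (helper283): quadratic twists of elliptic curves with full 2-torsion over number fields containing `i`, definitions
-/

set_option autoImplicit false

namespace Pool.Agent.Q283.FT

open NumberField IsDedekindDomain Filter Topology Finset WeierstrassCurve
open Pool.Agent.Q283.LQ (Sm Box Nest nS)
open Pool.Agent.Q7.LK
open Pool.Agent.Q283.EN (sh)
open Pool.Agent.TH841.SH.D (Coch Pt act Gal IsCoc IsCob LocTriv)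
open Pool.Agent.TH841.NF.D (Sha IsShaCoc)

/-! ## Linear algebra -/

/-- the group of the points of order dividing `2`: the components of a point are its Weil pairings with the first two points of order `2` -/
abbrev U2 : Type := ZMod 2 × ZMod 2

/-- the Weil pairing -/
noncomputable def om : U2 →ₗ[ZMod 2] U2 →ₗ[ZMod 2] ZMod 2 :=
  LinearMap.mk₂ (ZMod 2) (fun x y => x.1 * y.2 + x.2 * y.1)
    (fun x x' y => by simp only [Prod.fst_add, Prod.snd_add]; ring)
    (fun a x y => by simp only [Prod.smul_fst, Prod.smul_snd, smul_eq_mul]; ring)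
    (fun x y y' => by simp only [Prod.fst_add, Prod.snd_add]; ring)
    (fun a x y => by simp only [Prod.smul_fst, Prod.smul_snd, smul_eq_mul]; ring)

/-- the operators: `c l` is the class of the difference of the two roots `e i`, `i ≠ l`, and `w` that of the twist -/
noncomputable def opT {f : ℕ} (c : Fin 3 → Fin f → ZMod 2) (w : Fin f → ZMod 2) :
    (Fin f → ZMod 2) →ₗ[ZMod 2] U2 →ₗ[ZMod 2] U2 :=
  LinearMap.mk₂ (ZMod 2)
    (fun φ x => (dot φ (c 2) * (x.1 + x.2) + dot φ (c 1) * x.2 + dot φ w * x.1,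
      dot φ (c 2) * (x.1 + x.2) + dot φ (c 0) * x.1 + dot φ w * x.2))
    (fun φ φ' x => by
      have h : ∀ z : Fin f → ZMod 2, dot (φ + φ') z = dot φ z + dot φ' z := fun z => by
        simp only [dot, Pi.add_apply, add_mul, sum_add_distrib]
      ext
      · simp only [h, Prod.fst_add]; ring
      · simp only [h, Prod.snd_add]; ring)
    (fun a φ x => by
      have h : ∀ z : Fin f → ZMod 2, dot (a • φ) z = a * dot φ z := fun z => by
        simp only [dot, Pi.smul_apply, smul_eq_mul, mul_sum, mul_assoc]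
      ext
      · simp only [h, Prod.smul_fst, smul_eq_mul]; ring
      · simp only [h, Prod.smul_snd, smul_eq_mul]; ring)
    (fun φ x x' => by
      ext
      · simp only [Prod.fst_add, Prod.snd_add]; ring
      · simp only [Prod.fst_add, Prod.snd_add]; ring)
    (fun a φ x => by
      ext
      · simp only [Prod.smul_fst, Prod.smul_snd, smul_eq_mul]; ring
      · simp only [Prod.smul_fst, Prod.smul_snd, smul_eq_mul]; ring)

/-- the data of a curve -/
noncomputable def dj {f : ℕ} (t₀ : Fin f) (c : Fin 3 → Fin f → ZMod 2) (w : Fin f → ZMod 2)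
    (𝓛 : Submodule (ZMod 2) ((Fin f → U2) × (Fin f → U2))) : Dj (Fin f) U2 := ⟨om, opT c w, t₀, 𝓛⟩

/-- the symbols of a table -/
def NT {f k : ℕ} (τ : Tab 2 f k) (p q : Fin k) : ZMod 2 := Mt (fun _ _ => 0) τ q p

/-- the number of the solutions for a table -/
noncomputable def nSel {f k : ℕ} (D : Dj (Fin f) U2) (τ : Tab 2 f k) : ℕ := Nat.card (Sel D (NT τ) τ.1)

/-! ## Curves -/

/-- the curve `y² = (x - e 0) (x - e 1) (x - e 2)`, for `e 0 + e 1 + e 2 = 0` -/
def crv {F : Type} [Field F] (e : Fin 3 → F) : WeierstrassCurve F :=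
  sh (e 0 * e 1 + e 0 * e 2 + e 1 * e 2) (-(e 0 * e 1 * e 2))

/-- the roots: different, of sum `0` -/
structure Rt {F : Type} [Field F] (e : Fin 3 → F) : Prop where
  inj : Function.Injective e
  sum : e 0 + e 1 + e 2 = 0

/-- the roots of the twist by `D` -/
def twi {F : Type} [Field F] (D : F) (e : Fin 3 → F) : Fin 3 → F := fun i => D * e i

/-- the difference of the two roots `e i`, `i ≠ l` -/
def df {F : Type} [Field F] (e : Fin 3 → F) (l : Fin 3) : F :=
  if l = 0 then e 1 - e 2 else if l = 1 then e 0 - e 2 else e 0 - e 1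

/-- the class modulo squares of the point `P` of `crv e` over `L` is that of the pair `(a, b)`: that of `(x - e 0, x - e 1)` for
`P = (x, y)`, where `x - e i` has to be replaced by the product of the two other differences if it is `0` -/
def Cx {F : Type} [Field F] (e : Fin 3 → F) (L : Type) [Field L] [Algebra F L] (P : Pt (crv e) L) (a b : L) : Prop :=
  a ≠ 0 ∧ b ≠ 0 ∧ ((P = 0 ∧ IsSquare a ∧ IsSquare b) ∨
    ∃ (x y : L) (h : ((crv e).baseChange L).toAffine.Nonsingular x y), P = Affine.Point.some x y h ∧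
      ((x ≠ algebraMap F L (e 0) ∧ IsSquare (a * (x - algebraMap F L (e 0)))) ∨
        (x = algebraMap F L (e 0) ∧ IsSquare (a * algebraMap F L (df e 1 * df e 2)))) ∧
      ((x ≠ algebraMap F L (e 1) ∧ IsSquare (b * (x - algebraMap F L (e 1)))) ∨
        (x = algebraMap F L (e 1) ∧ IsSquare (b * algebraMap F L (df e 0 * df e 2)))))

/-- the covering `a z₀² + e₀ w² = b z₁² + e₁ w² = a b z₂² + e₂ w²` has a nontrivial solution in `L` -/
def Cov {F : Type} [Field F] (e : Fin 3 → F) (L : Type) [Field L] [Algebra F L] (a b : F) : Prop :=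
  ∃ (z : Fin 3 → L) (w : L), (z ≠ 0 ∨ w ≠ 0) ∧
    algebraMap F L a * z 0 ^ 2 + algebraMap F L (e 0) * w ^ 2 =
      algebraMap F L b * z 1 ^ 2 + algebraMap F L (e 1) * w ^ 2 ∧
    algebraMap F L a * z 0 ^ 2 + algebraMap F L (e 0) * w ^ 2 =
      algebraMap F L (a * b) * z 2 ^ 2 + algebraMap F L (e 2) * w ^ 2

/-- the pairs with the property `P` have exactly `N` classes modulo squares -/
def HasN2 {F : Type} [Field F] (P : F → F → Prop) (N : ℕ) : Prop :=
  ∃ a : Fin N → F × F, (∀ i, P (a i).1 (a i).2) ∧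
    (∀ i j, i ≠ j → ¬ (IsPow 2 ((a i).1 / (a j).1) ∧ IsPow 2 ((a i).2 / (a j).2))) ∧
    ∀ b b', P b b' → ∃ i, IsPow 2 (b / (a i).1) ∧ IsPow 2 (b' / (a i).2)

section F

variable {F : Type} [Field F] [NumberField F]

/-- the covering of `(a, b)` has a point over the completion at `v` -/
def AX (v : HeightOneSpectrum (𝓞 F)) (e : Fin 3 → F) (a b : F) : Prop :=
  a ≠ 0 ∧ b ≠ 0 ∧ Cov e (v.adicCompletion F) a b

/-- the pair `(a, b)` is, up to local squares at `v`, the class of a point of order dividing `2` -/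
def TX (v : HeightOneSpectrum (𝓞 F)) (e : Fin 3 → F) (a b : F) : Prop :=
  (Lpw 2 v a ∧ Lpw 2 v b) ∨ (Lpw 2 v (a * (df e 1 * df e 2)) ∧ Lpw 2 v (b * df e 2)) ∨
    (Lpw 2 v (a * df e 2) ∧ Lpw 2 v (b * (df e 0 * df e 2))) ∨ (Lpw 2 v (a * df e 1) ∧ Lpw 2 v (b * df e 0))

/-- the conditions for `v` to be a good place -/
structure Gd (v : HeightOneSpectrum (𝓞 F)) (e : Fin 3 → F) : Prop where
  odd : ¬ Dp 2 v
  int : ∀ i, v.valuation F (e i) ≤ 1
  unit : ∀ l, v.valuation F (df e l) = 1

/-- the pair `(a, b)` is in the Selmer group of `crv e` -/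
def SC (e : Fin 3 → F) (a b : F) : Prop := ∀ v : HeightOneSpectrum (𝓞 F), AX v e a b

/-- the conditions belonging to the twist by `D`, with given conditions `A v` at the small places -/
structure CondP (y : ℕ) (A : HeightOneSpectrum (𝓞 F) → F → F → Prop) (e : Fin 3 → F) (D a b : F) : Prop where
  ne : a ≠ 0 ∧ b ≠ 0
  unr : ∀ v : HeightOneSpectrum (𝓞 F), ¬ Sm y v → vl 2 v D = 0 → vl 2 v a = 0 ∧ vl 2 v b = 0
  ram : ∀ v : HeightOneSpectrum (𝓞 F), ¬ Sm y v → vl 2 v D ≠ 0 → TX v (twi D e) a b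
  loc : ∀ v : HeightOneSpectrum (𝓞 F), Sm y v → A v a b

/-- groups `A v` of local classes at the small places -/
structure LocP (y : ℕ) (A : HeightOneSpectrum (𝓞 F) → F → F → Prop) : Prop where
  ne : ∀ v a b, Sm y v → A v a b → a ≠ 0 ∧ b ≠ 0
  mul : ∀ v a b a' b', Sm y v → A v a b → A v a' b' → A v (a * a') (b * b')
  pow : ∀ v a b, Sm y v → Lpw 2 v a → Lpw 2 v b → A v a b

/-- the subspace `𝓛` consists of the classes (coordinates with respect to `u`, coordinates with respect to `r`) of the pairs which are in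
`A v` for all small `v` -/
def Mem {f : ℕ} (y : ℕ) (u r : Fin f → F) (A : HeightOneSpectrum (𝓞 F) → F → F → Prop)
    (𝓛 : Submodule (ZMod 2) ((Fin f → U2) × (Fin f → U2))) : Prop :=
  ∀ (a b : F) (x x' : (Fin f → ZMod 2) × (Fin f → ZMod 2)), a ≠ 0 → b ≠ 0 →
    Nn 2 y (a * mon r x.1 * mon u x.2) → Nn 2 y (b * mon r x'.1 * mon u x'.2) →
    (((fun t => (x.2 t, x'.2 t)), fun t => (x.1 t, x'.1 t)) ∈ 𝓛 ↔
      ∀ v : HeightOneSpectrum (𝓞 F), Sm y v → A v a b)

/-- the sum of the Hilbert symbols at the small places is the standard form on the classes (there is no reciprocity term) -/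
def Frm {f : ℕ} (t : HeightOneSpectrum (𝓞 F) → F → F → ZMod 2) (y : ℕ) (u r : Fin f → F) : Prop :=
  ∀ (a b : F) (x x' : (Fin f → ZMod 2) × (Fin f → ZMod 2)), a ≠ 0 → b ≠ 0 →
    Nn 2 y (a * mon r x.1 * mon u x.2) → Nn 2 y (b * mon r x'.1 * mon u x'.2) →
    ∑ᶠ v : {v : HeightOneSpectrum (𝓞 F) // Sm y v}, t v.1 a b = dot x.1 x'.2 + dot x'.1 x.2

/-- `c l` is the class of the difference of the two roots `e i`, `i ≠ l` -/
def Dcl {f : ℕ} (u : Fin f → F) (e : Fin 3 → F) (c : Fin 3 → Fin f → ZMod 2) : Prop :=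
  ∀ l, IsPow 2 (df e l * mon u (c l))

/-- there is no cyclic subgroup of order `4` which is defined over `F` -/
def NoFour (e : Fin 3 → F) : Prop := ∀ l l', l ≠ l' → ¬ IsPow 2 (df e l * df e l')

/-- the modules of the points of order dividing `4` are isomorphic -/
def Matched (e e' : Fin 3 → F) : Prop := ∃ σ : Equiv.Perm (Fin 3), ∀ l, IsPow 2 (df e l * df e' (σ l))

/-- the cocycle `f` with values in the points of order dividing `2` belongs to the pair `(a, b)`: the Weil pairings of `f σ` with the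
first two points of order `2` are the Kummer characters of `a` and `b` -/
def Ks (e : Fin 3 → F) (a b : F) (f : Coch (crv e)) : Prop :=
  (∀ σ, f σ + f σ = 0) ∧ ∃ α β : AlgebraicClosure F, α ^ 2 = algebraMap F _ a ∧ β ^ 2 = algebraMap F _ b ∧
    ∀ σ : Gal F, (σ α = α ↔ f σ = 0 ∨ ∃ y h, f σ = Affine.Point.some (algebraMap F (AlgebraicClosure F) (e 0)) y h) ∧
      (σ β = β ↔ f σ = 0 ∨ ∃ y h, f σ = Affine.Point.some (algebraMap F (AlgebraicClosure F) (e 1)) y h)

end F

end Pool.Agent.Q283.FT
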