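import Pool.Agent.Q283.FT.Stm4
import Pool.Agent.Q44.JQ.M.Low
import Pool.Agent.Q283.LQ.Imp2
import Pool.Agent.Q7.LK.Main
import Pool.Agent.Q283.EN.MainQ
import Pool.Agent.Q149.FT.MLC

/-!
# Project FT: the main theorem, general parts
-/

set_option autoImplicit false

namespace Pool.Agent.Q283.FT

open NumberField IsDedekindDomain Filter Topology Finset WeierstrassCurve Module
open Pool.Agent.Q283.LQ (Sm Box Nest nS)
open Pool.Agent.Q7.LK
open Pool.Agent.TH841.SH.D (Coch Pt act Gal IsCoc IsCob LocTriv)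
open Pool.Agent.TH841.NF.D (Sha IsShaCoc)
open Pool.Agent.Q283.EN (P_BASE P_LOC)
open Q44.JQ (lawc)
open scoped Classical

/-! ## The number of the classes -/

section

variable {F : Type} [Field F]

theorem hasN2_uniq {P : F → F → Prop} (h0 : ∀ a b, P a b → a ≠ 0 ∧ b ≠ 0) {N M : ℕ} (hN : HasN2 P N) (hM : HasN2 P M) :
    N = M := by
  have key : ∀ N M : ℕ, HasN2 P N → HasN2 P M → N ≤ M := by
    rintro N M ⟨a, ha, hai, -⟩ ⟨b, hb, -, hbf⟩
    choose f hf hf' using fun i => hbf (a i).1 (a i).2 (ha i)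
    have hinj : Function.Injective f := by
      intro i j hij
      by_contra hne
      apply hai i j hne
      obtain ⟨x, hx⟩ := hf i
      obtain ⟨x', hx'⟩ := hf j
      obtain ⟨z, hz⟩ := hf' i
      obtain ⟨z', hz'⟩ := hf' j
      have h1 := h0 _ _ (ha i)
      have h2 := h0 _ _ (ha j)
      have h3 := h0 _ _ (hb (f j))
      obtain ⟨h1a, h1b⟩ := h1
      obtain ⟨h2a, h2b⟩ := h2
      obtain ⟨h3a, h3b⟩ := h3
      constructor
      · refine ⟨x / x', ?_⟩
        rw [div_pow, ← hx, ← hx', hij]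
        field_simp
      · refine ⟨z / z', ?_⟩
        rw [div_pow, ← hz, ← hz', hij]
        field_simp
    have := Fintype.card_le_of_injective f hinj
    simpa using this
  exact le_antisymm (key N M hN hM) (key M N hM hN)

theorem hasN2_congr {P Q : F → F → Prop} (h : ∀ a b, P a b ↔ Q a b) {N : ℕ} (hN : HasN2 P N) : HasN2 Q N := by
  obtain ⟨a, h1, h2, h3⟩ := hN
  exact ⟨a, fun i => (h _ _).1 (h1 i), h2, fun b b' hb => h3 b b' ((h b b').2 hb)⟩

end

/-! ## The exponents -/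

section

variable {F : Type} [Field F] [NumberField F]

/-- the elements of `Ш` killed by two -/
abbrev S2 (e : Fin 3 → F) : Type := {x : Sha (crv e) // (2 : ℕ) • x = 0}

/-- the sum of the rank and of the dimension of `Ш[2]` -/
noncomputable def rk2 (e : Fin 3 → F) : ℕ := finrank ℤ (Pt (crv e) F) + Nat.log 2 (Nat.card (S2 e))

theorem twi_rt {D : F} (hD : D ≠ 0) {e : Fin 3 → F} (he : Rt e) : Rt (twi D e) := by
  refine ⟨fun a b hab => he.inj (mul_left_cancel₀ hD hab), ?_⟩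
  have h := he.sum
  show D * e 0 + D * e 1 + D * e 2 = 0
  rw [← mul_add, ← mul_add, h, mul_zero]

theorem exp_eq (hNEX : S_NEX) (hCNT : S_CNT2) (i ζ : F) (hi : i ^ 2 = -1) (hζ : IsPrimitiveRoot ζ 2) (hb : P_BASE 2 F ζ)
    {e : Fin 3 → F} (he : Rt e) : Finite (S2 e) ∧ HasN2 (SC e) (2 ^ (rk2 e + 2)) ∧
      2 ^ finrank ℤ (Pt (crv e) F) * Nat.card (S2 e) = 2 ^ rk2 e := by
  obtain ⟨n, hn⟩ := hNEX F i ζ hi hζ hb e he
  obtain ⟨hfin, hN⟩ := hCNT F i hi e he _ hn
  have hdvd : Nat.card (S2 e) ∣ 2 ^ n := by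
    rw [hN]
    exact Dvd.intro_left _ rfl
  obtain ⟨m, -, hm⟩ := (Nat.dvd_prime_pow Nat.prime_two).1 hdvd
  have hlog : Nat.log 2 (Nat.card (S2 e)) = m := by
    rw [hm]
    exact Nat.log_pow (by norm_num) m
  have h2 : 2 ^ n = 2 ^ (rk2 e + 2) := by
    rw [hN]
    unfold rk2
    rw [hlog, hm, pow_add, pow_add]
    ring
  refine ⟨hfin, ?_, ?_⟩
  · rw [← h2]
    exact hn
  · unfold rk2
    rw [hlog, hm, pow_add]

theorem rk2_zero (hNEX : S_NEX) (hCNT : S_CNT2) (hTRV : S_TRV) (i ζ : F) (hi : i ^ 2 = -1) (hζ : IsPrimitiveRoot ζ 2)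
    (hb : P_BASE 2 F ζ) {e : Fin 3 → F} (he : Rt e) :
    rk2 e = 0 ↔ Finite (Pt (crv e) F) ∧ ∀ (n : ℕ) (x : Sha (crv e)), 2 ^ n • x = 0 → x = 0 := by
  obtain ⟨h1, -, h3⟩ := exp_eq hNEX hCNT i ζ hi hζ hb he
  rw [← hTRV F e he h1, h3]
  constructor
  · intro h
    rw [h, pow_zero]
  · intro h
    by_contra hc
    have := Nat.one_lt_two_pow hc
    omega

theorem sc_ne {e : Fin 3 → F} (a b : F) (h : SC e a b) : a ≠ 0 ∧ b ≠ 0 := by
  obtain ⟨v⟩ := Pool.Agent.Q283.EN.exists_place F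
  exact ⟨(h v).1, (h v).2.1⟩

end

/-! ## The laws -/

theorem marg {κ : Type} [Fintype κ] (c : κ → ZMod 2) (l : κ) (j : ℕ) :
    HasSum (fun g : κ → ℕ => if g l = j then ∏ l', lawc (c l') (g l') else 0) (lawc (c l) j) := by
  have h1 := Q44.JQ.M.hasSum_prod (J := κ) (f := fun l' m => if l' = l then (if m = j then 1 else 0) else lawc (c l') m)
    (by
      intro l' m
      split_ifs
      · exact zero_le_one
      · exact le_rfl
      · exact Q44.JQ.M.lawc_nonneg _ _)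
    (by
      intro l'
      by_cases h : l' = l
      · simp only [h, if_true]
        exact hasSum_ite_eq j 1
      · simp only [h, if_false]
        exact Q44.JQ.M.hasSum_lawc _)
  have h2 := h1.mul_right (lawc (c l) j)
  rw [one_mul] at h2
  have h4 : (fun g : κ → ℕ => if g l = j then ∏ l', lawc (c l') (g l') else 0) = fun g : κ → ℕ =>
      (∏ l', if l' = l then (if g l' = j then (1 : ℝ) else 0) else lawc (c l') (g l')) * lawc (c l) j := by
    funext g
    rw [← Finset.mul_prod_erase univ (fun l' => lawc (c l') (g l')) (mem_univ l),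
      ← Finset.mul_prod_erase univ _ (mem_univ l)]
    have h3 : ∏ x ∈ univ.erase l, (if x = l then (if g x = j then (1 : ℝ) else 0) else lawc (c x) (g x)) =
        ∏ x ∈ univ.erase l, lawc (c x) (g x) := by
      refine prod_congr rfl fun x hx => ?_
      rw [if_neg (ne_of_mem_erase hx)]
    rw [h3, if_pos rfl]
    by_cases h : g l = j
    · rw [if_pos h, if_pos h, h]
      ring
    · rw [if_neg h, if_neg h]
      ring
  rw [h4]
  exact h2

theorem nest_all {ι : Type} (s : Finset ι) : ∀ (k : ℕ) (P : ι → (Fin k → ℕ) → Prop), (∀ g ∈ s, Nest k (P g)) →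
    Nest k fun X => ∀ g ∈ s, P g X
  | 0, _, h => h
  | k + 1, P, h => Pool.Agent.Q7.LK.nest_mono k _ _ (fun _ hX => (Filter.eventually_all_finset s).2 hX)
      (nest_all s k (fun g X => ∀ᶠ x : ℕ in atTop, P g (Fin.snoc (α := fun _ => ℕ) X x)) h)

/-- the mean of the exponents -/
theorem mean_two (hMLC : S_MLC) (c : ZMod 2) (C ε : ℝ) (hε : 0 < ε) : ∃ (R : ℕ) (δ : ℝ), 0 < δ ∧
    ∀ (α : Type) (T : Finset α) (r : α → ℕ),
      (∀ j ≤ R, |((T.filter (fun q => r q = j)).card : ℝ) - lawc c j * (T.card : ℝ)| ≤ δ * (T.card : ℝ)) →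
      ∑ q ∈ T, (2 : ℝ) ^ r q ≤ C * (T.card : ℝ) →
      |∑ q ∈ T, (r q : ℝ) - (∑' j : ℕ, (j : ℝ) * lawc c j) * (T.card : ℝ)| ≤ ε * (T.card : ℝ) := by
  obtain ⟨R1, δ1, hδ1, h1⟩ := hMLC c C ε hε
  have hs := (Pool.Agent.Q149.FT.summable_lawc c).hasSum.tendsto_sum_nat
  obtain ⟨R2, hR2⟩ := (hs.eventually (lt_mem_nhds (show (∑' j : ℕ, (j : ℝ) * lawc c j) - ε / 2 <
    ∑' j : ℕ, (j : ℝ) * lawc c j by linarith))).exists
  have hK : (0 : ℝ) < ∑ j ∈ range R2, (j : ℝ) + 1 := by positivity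
  refine ⟨max R1 R2, min δ1 (ε / 2 / (∑ j ∈ range R2, (j : ℝ) + 1)), lt_min hδ1 (by positivity), fun α T r hr hC => ?_⟩
  have hc0 : (0 : ℝ) ≤ T.card := Nat.cast_nonneg _
  rw [abs_le]
  constructor
  · have h2 : ∑ j ∈ range R2, (j : ℝ) * ((T.filter (fun q => r q = j)).card : ℝ) ≤ ∑ q ∈ T, (r q : ℝ) := by
      have h3 : ∀ j ∈ range R2, (j : ℝ) * ((T.filter (fun q => r q = j)).card : ℝ) =
          ∑ q ∈ T, if r q = j then (j : ℝ) else 0 := by
        intro j _
        rw [← sum_filter, sum_const, nsmul_eq_mul, mul_comm]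
      rw [sum_congr rfl h3, sum_comm]
      refine sum_le_sum fun q _ => ?_
      rw [sum_ite_eq]
      split_ifs
      · exact le_rfl
      · exact Nat.cast_nonneg _
    have h4 : ∀ j ∈ range R2, (j : ℝ) * ((lawc c j - ε / 2 / (∑ j ∈ range R2, (j : ℝ) + 1)) * (T.card : ℝ)) ≤
        (j : ℝ) * ((T.filter (fun q => r q = j)).card : ℝ) := by
      intro j hj
      refine mul_le_mul_of_nonneg_left ?_ (Nat.cast_nonneg _)
      have h5 := (abs_le.1 (hr j (le_trans (mem_range.1 hj).le (le_max_right _ _)))).1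
      have h6 : min δ1 (ε / 2 / (∑ j ∈ range R2, (j : ℝ) + 1)) * (T.card : ℝ) ≤
          ε / 2 / (∑ j ∈ range R2, (j : ℝ) + 1) * (T.card : ℝ) := mul_le_mul_of_nonneg_right (min_le_right _ _) hc0
      rw [sub_mul]
      linarith
    have h7 := (sum_le_sum h4).trans h2
    have h8 : ∑ j ∈ range R2, (j : ℝ) * ((lawc c j - ε / 2 / (∑ j ∈ range R2, (j : ℝ) + 1)) * (T.card : ℝ)) =
        (∑ j ∈ range R2, (j : ℝ) * lawc c j) * (T.card : ℝ) -
          (∑ j ∈ range R2, (j : ℝ)) * (ε / 2 / (∑ j ∈ range R2, (j : ℝ) + 1)) * (T.card : ℝ) := by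
      rw [sum_mul, sum_mul, sum_mul, ← sum_sub_distrib]
      refine sum_congr rfl fun j _ => ?_
      ring
    have h9 : (∑ j ∈ range R2, (j : ℝ)) * (ε / 2 / (∑ j ∈ range R2, (j : ℝ) + 1)) ≤ ε / 2 := by
      rw [mul_div_assoc', div_le_iff₀ hK]
      nlinarith
    have h10 := mul_le_mul_of_nonneg_right h9 hc0
    have h11 := mul_le_mul_of_nonneg_right hR2.le hc0
    rw [h8] at h7
    nlinarith
  · have h2 := h1 α T r (fun j hj => le_trans (hr j (le_trans hj (le_max_left _ _)))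
      (mul_le_mul_of_nonneg_right (min_le_left _ _) hc0)) hC
    linarith

end Pool.Agent.Q283.FT
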