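import Pool.Agent.Q283.FT.Stm3

/-!
# Project FT (helper283): statements of the parts, ranks over multiquadratic extensions
-/

set_option autoImplicit false

namespace Pool.Agent.Q283.FT

open NumberField IsDedekindDomain Finset WeierstrassCurve
open Pool.Agent.Q7.LK
open Pool.Agent.TH841.SH.D (Pt)

/-- JOB RKQ (uses `S_MWR` for finite generation, over `F` and over `L`). The rank over a quadratic extension.
Proof.  `L = F(s)`, `s² = m`, `σ` the automorphism with `σ s = - s`.  `Pt (crv e) L` is the group of the `L`-points.  The maps `P ↦ P` (`E(F) → E(L)`) and `(x, y) ↦ (x / m, y / (m s))` (`E_m(F) → E(L)`; `crv (twi m e)` is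
`y² = (x - m e 0) (x - m e 1) (x - m e 2)`) are injective homomorphisms with the images `{P | σ P = P}` and `{P | σ P = - P}`.  `2 P = (P + σ P) + (P - σ P)`, so the sum of the two images contains `2 E(L)`, and their
intersection is killed by `2`, finite: the ranks add (`finrank` of a submodule which contains `2 E(L)`, `E(L)` finitely generated by `S_MWR` for `L` and the roots `algebraMap F L (e j)`; `(crv e).baseChange L` and
`(crv (algebraMap F L ∘ e)).baseChange L` are equal curves). -/
def S_RKQ : Prop := ∀ (F L : Type) [Field F] [NumberField F] [Field L] [NumberField L] [Algebra F L] (m : F) (s : L),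
  s ^ 2 = algebraMap F L m → (¬ ∃ x : F, algebraMap F L x = s) → IntermediateField.adjoin F {s} = ⊤ →
  ∀ e : Fin 3 → F, Rt e →
    Module.finrank ℤ (Pt (crv e) L) = Module.finrank ℤ (Pt (crv e) F) + Module.finrank ℤ (Pt (crv (twi m e)) F)

/-- JOB RKM (uses `S_RKQ`). The rank over a multiquadratic extension.
Proof.  Induction on `n` (for all `F`, `e`).  `K = F(x 0, …, x (n - 1))` as an intermediate field, a number field (or: `K = F(x 0)` first, then the extension `M / K`).  If `a ∈ K` is a square in `K(√b)` then `a` or `a b` is a square in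
`K`; so an element of `F` is a square in `F(√m_0, …)` only if its product with some `∏_(j ∈ T) m j` is a square in `F`; hence `x n ∉ K`.  `S_RKQ` for `M / K` and the roots `algebraMap F K (e j)` (`(crv e).baseChange M` and
`(crv (algebraMap F K ∘ e)).baseChange M` are equal curves), and the induction hypothesis for `e` and for `twi (m n) e` (`twi a (twi b e) = twi (a b) e`). -/
def S_RKM : Prop := ∀ (F M : Type) [Field F] [NumberField F] [Field M] [NumberField M] [Algebra F M] (n : ℕ)
  (m : Fin n → F) (x : Fin n → M), (∀ j, x j ^ 2 = algebraMap F M (m j)) →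
  IntermediateField.adjoin F (Set.range x) = ⊤ → (∀ T : Finset (Fin n), T.Nonempty → ¬ IsPow 2 (∏ j ∈ T, m j)) →
  ∀ e : Fin 3 → F, Rt e →
    Module.finrank ℤ (Pt (crv e) M) = ∑ T : Finset (Fin n), Module.finrank ℤ (Pt (crv (twi (∏ j ∈ T, m j) e)) F)

end Pool.Agent.Q283.FT
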